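import Pool.Agent.Helper6.CS.Api

/-!
# Piecewise syndetic sets, variable words: definitions
-/

namespace Pool.Agent.Helper6.CS

set_option synthInstance.maxSize 1000000000

variable {M : Type} [World M]
variable {α β γ δ : Type} [Cod M α] [Cod M β] [Cod M γ] [Cod M δ]

/-- `D` is piecewise syndetic over the alphabet `{0, .., b - 1}`. -/
def PS (b : M) (D : Wd M → Prop) : Prop :=
  ∃ p : M, ∀ q : M, ∃ y : Wd M, Over b y ∧ ∀ g : Wd M, Over b g → g.len ≤ q →
    ∃ t : Wd M, Over b t ∧ t.len ≤ p ∧ D (t ++ g ++ y)

instance IP.PS {f : α → M} {D : α → Wd M → Prop} [hf : IFn M f]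
    [hD : IP M fun p : α × Wd M => D p.1 p.2] : IP M fun a => CS.PS (f a) (D a) := by
  unfold CS.PS
  infer_instance

/-- `sb y(b) ∈ D` for all letters `c < b`, where `y` is a word over `b + 1` and the letter `b` is
the variable. -/
def Ext (b : M) (D : Wd M → Prop) (s y : Wd M) : Prop :=
  ∀ c : M, c < b → D (s ++ Wd.sg c ++ Wd.sub b c y)

instance IP.Ext {f : α → M} {D : α → Wd M → Prop} {g h : α → Wd M} [hf : IFn M f]
    [hD : IP M fun p : α × Wd M => D p.1 p.2] [hg : IFn M g] [hh : IFn M h] :
    IP M fun a => CS.Ext (f a) (D a) (g a) (h a) := by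
  unfold CS.Ext
  infer_instance

/-- All letters `≥ a` of `w` are replaced: `a + i` by the entry `i` of `v`. -/
noncomputable def isub (a : M) (w v : Wd M) : Wd M :=
  Wd.of w.len fun p => if w.get p < a then w.get p else v.get (w.get p - a)

instance IFn.isub {f : α → M} {g h : α → Wd M} [hf : IFn M f] [hg : IFn M g] [hh : IFn M h] :
    IFn M fun a => CS.isub (f a) (g a) (h a) := by
  unfold CS.isub
  infer_instance

/-- The first position of the variable `x_i` (the letter `a + i`) in `W`. -/
noncomputable def fo (a : M) (W : M → M) (i : M) : M := lst fun p => W p = a + i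

instance IFn.fo {f : α → M} {W : α → M → M} {g : α → M} [hf : IFn M f]
    [hW : IFn M fun p : α × M => W p.1 p.2] [hg : IFn M g] :
    IFn M fun a => CS.fo (f a) (W a) (g a) := by
  unfold CS.fo
  infer_instance

instance (a : M) (W : M → M) [IFn M W] : IFn M fun i : M => fo a W i := IFn.fo

/-- The word `W[v]`: the variable `x_i`, `i < |v|`, is replaced by the entry `i` of `v`, and the
word is cut at the first occurrence of `x_|v|`. -/
noncomputable def inst (a : M) (W : M → M) (v : Wd M) : Wd M :=
  Wd.of (fo a W v.len) fun p => if W p < a then W p else v.get (W p - a)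

instance IFn.inst {f : α → M} {W : α → M → M} {g : α → Wd M} [hf : IFn M f]
    [hW : IFn M fun p : α × M => W p.1 p.2] [hg : IFn M g] :
    IFn M fun a => CS.inst (f a) (W a) (g a) := by
  unfold CS.inst
  infer_instance

instance (a : M) (W : M → M) [IFn M W] : IFn M fun v : Wd M => inst a W v := IFn.inst

/-- `W` is an omega-variable word over the alphabet `{0, .., a - 1}`; the variable `x_i` is the
letter `a + i`. -/
def OW (a : M) (W : M → M) : Prop :=
  (∀ i : M, ∃ p : M, W p = a + i) ∧ ∀ i p : M, W p = a + (i + 1) → ∃ q : M, q < p ∧ W q = a + i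

/-- `v` is an `n`-variable word over the alphabet `{0, .., a - 1}`. -/
def VW (a n : M) (v : Wd M) : Prop :=
  Over (a + n) v ∧ (∀ i : M, i < n → ∃ p : M, p < v.len ∧ v.get p = a + i) ∧
    ∀ i p : M, p < v.len → v.get p = a + (i + 1) → ∃ q : M, q < p ∧ v.get q = a + i

instance : IP M fun p : (M × M) × Wd M => VW p.1.1 p.1.2 p.2 := by unfold VW; infer_instance

instance IP.VW {f g : α → M} {h : α → Wd M} [hf : IFn M f] [hg : IFn M g] [hh : IFn M h] :
    IP M fun a => CS.VW (f a) (g a) (h a) := by
  unfold CS.VW
  infer_instance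

example (W : M → M) [IFn M W] (a : M) : IP M fun v : Wd M => (inst a W v).len < v.len := by
  infer_instance

example (D : Wd M → Prop) [IP M D] : IP M fun b : M => PS b D := by
  infer_instance

example (D : Wd M → Prop) [IP M D] : IP M fun b : M => ∀ s : Wd M, D s → PS (b + 1) (Ext b D s) := by
  infer_instance

end Pool.Agent.Helper6.CS
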