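import Pool.Agent.Helper6.CS.Model

/-!
# The statement: the Carlson-Simpson theorem in a structure for second order arithmetic
-/

namespace Pool.Agent.Helper6.CS

namespace L2Structure

variable (A : L2Structure)

/-- The numeral `n` in the structure. -/
def num : ℕ → A.M
  | 0 => A.zero
  | n + 1 => A.add (num n) A.one

/-- The pairing function `(x, y) ↦ (x + y) * (x + y) + x`. -/
def pair (x y : A.M) : A.M := A.add (A.mul (A.add x y) (A.add x y)) x

/-- `m * (z + 1) + 1` divides `n`. -/
def Bit (m n z : A.M) : Prop := ∃ c, n = A.mul (A.add (A.mul m (A.add z A.one)) A.one) c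

/-- `v` is the entry number `i` of the finite sequence coded by `m` and `n`: the least `v` such that
`m * ((i, v) + 1) + 1` divides `n`. -/
def Entry (m n i v : A.M) : Prop :=
  A.Bit m n (A.pair i v) ∧ ∀ v', A.lt v' v → ¬ A.Bit m n (A.pair i v')

/-- `c` codes the finite word of length `k` with the letters `g 0, .., g (k - 1)`. -/
def Codes (c k : A.M) (g : A.M → A.M) : Prop :=
  ∃ m n, c = A.pair k (A.pair m n) ∧ ∀ i, A.lt i k → A.Entry m n i (g i)

/-- The finite word of length `k` with the letters `g i` is an `n`-variable word over the alphabet of
the numbers less than `a`; the number `a + i` serves as the variable `x_i`. Every letter is less than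
`a + n`, every variable `x_i` with `i < n` occurs, and every occurrence of `x_(i+1)` comes after an
occurrence of `x_i` (that is, the first occurrence of `x_i` comes before the first occurrence of
`x_(i+1)`). -/
def IsVarWord (n a k : A.M) (g : A.M → A.M) : Prop :=
  (∀ p, A.lt p k → A.lt (g p) (A.add a n)) ∧
  (∀ i, A.lt i n → ∃ p, A.lt p k ∧ g p = A.add a i) ∧
  ∀ i p, A.lt p k → g p = A.add a (A.add i A.one) → ∃ q, A.lt q p ∧ g q = A.add a i

/-- The function `F` belongs to the structure: its graph is a member of `S`. -/
def InS (F : A.M → A.M) : Prop := {z | ∃ x, z = A.pair x (F x)} ∈ A.S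

/-- `W` is an omega-variable word over the alphabet of the numbers less than `a`: every variable
`x_i` (the number `a + i`) occurs, and the first occurrence of `x_i` comes before the first occurrence
of `x_(i+1)`. -/
def IsOmegaWord (a : A.M) (W : A.M → A.M) : Prop :=
  (∀ i, ∃ p, W p = A.add a i) ∧
  ∀ i p, W p = A.add a (A.add i A.one) → ∃ q, A.lt q p ∧ W q = A.add a i

/-- The word of length `q` with the letters `h p` is `W[v]`, where `v` is the word of length `k` with
the letters `g i`: `q` is the first occurrence of the variable `x_k` in `W`, and for `p < q` the letter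
`h p` is `W p` if this is less than `a`, and `g i` if `W p` is the variable `x_i`. -/
def IsSubst (a : A.M) (W : A.M → A.M) (k : A.M) (g : A.M → A.M) (q : A.M) (h : A.M → A.M) : Prop :=
  W q = A.add a k ∧ (∀ p, A.lt p q → W p ≠ A.add a k) ∧
  (∀ p, A.lt p q → A.lt (W p) a → h p = W p) ∧
  ∀ p i, A.lt p q → W p = A.add a i → h p = g i

/-- `f` is a colouring of the `n`-variable words over the alphabet of the numbers less than `a` with
colours less than `l`: `f` belongs to the structure, its values at codes of `n`-variable words are
less than `l`, and all codes of an `n`-variable word have the same colour. -/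
def IsColouring (n a l : A.M) (f : A.M → A.M) : Prop :=
  A.InS f ∧ ∀ k g c c', A.IsVarWord n a k g → A.Codes c k g → A.Codes c' k g →
    A.lt (f c) l ∧ f c = f c'

/-- `OVW^n` in the structure: for all numbers of colours `l ≥ 1`, all alphabets (all sizes `a`) and all
colourings `f` of the `n`-variable words there are an omega-variable word `W` and a colour `c` such
that `W[v]` has colour `c` for every `n`-variable word `v`. -/
def SatOVW (n : ℕ) : Prop :=
  ∀ l a : A.M, A.lt A.zero l → ∀ f : A.M → A.M, A.IsColouring (A.num n) a l f →
    ∃ W : A.M → A.M, A.InS W ∧ A.IsOmegaWord a W ∧ ∃ c, A.lt c l ∧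
      ∀ v k g, A.Codes v k g → A.IsVarWord (A.num n) a k g →
        ∃ d q h, A.IsSubst a W k g q h ∧ A.Codes d q h ∧ f d = c

end L2Structure

end Pool.Agent.Helper6.CS
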