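import Pool.Agent.Helper6.CS.Goals1
import Pool.Agent.Helper6.CS.Stmt

/-!
# Project CS (MP_81e84b_lc): goals, part 2 (Lemma 5 and the theorem)
-/

namespace Pool.Agent.Helper6.CS

set_option synthInstance.maxSize 1000000000

/-- Lemma 5, the set `D(w)`; here the words to be coloured are the `(k+1)`-variable words, they are
`u ++ x_k ++ z` with a `k`-variable word `u` and `z` over `a + k + 1`; `w` has the `j` variables
`a, .., a + j - 1` (the capital `X_i` of the paper), `y` is a word over `a + j`. -/
def Dw {M : Type} [World M] (a k : M) (f : Wd M → M) (w : Wd M) (j : M) (y : Wd M) : Prop :=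
  ∀ u z : Wd M, VW a k u → Over (a + k + 1) z → z.len ≠ 0 → u.len + 1 + z.len = j →
    f (isub a (w ++ y) (u ++ Wd.sg (a + k) ++ z)) = f (inst a w.get (u ++ Wd.sg (a + k)))

instance IP.Dw {M : Type} [World M] {α : Type} [Cod M α] (a k : M) (f : Wd M → M) [hf : IFn M f]
    {w : α → Wd M} {j : α → M} {y : α → Wd M} [hw : IFn M w] [hj : IFn M j] [hy : IFn M y] :
    IP M fun x => CS.Dw a k f (w x) (j x) (y x) := by
  unfold CS.Dw
  infer_instance

instance {M : Type} [World M] (a k : M) (f : Wd M → M) [hf : IFn M f] (w : Wd M) (j : M) :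
    IP M fun y => Dw a k f w j y := IP.Dw a k f

/-- **EA** (the substitution identity of Lemma 5; `w` stands for `w s` of the paper).

PROOF. Both sides have the same length; compare the entries (`Wd.ext'`, `Wd.lt_cases`). An entry
`c < a` of `w` or `y` is unchanged on both sides. Entries `a ≤ c < a + j` become
`v.get (c - a)` on both sides (`c - a < j = v.len`). The letter `a + j` (at position `w.len` and in `y`)
becomes `(v ++ Wd.sg e).get j = e` on the left, and on the right it is first replaced by `b`, which becomes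
`e`: if `b = e < a` it stays, if `b = a + i` it becomes `v.get i = e`. -/
def G_EA : Prop := ∀ (M : Type) [World M] (a j : M) (w y v : Wd M) (e b : M), Over (a + j) w →
  Over (a + j + 1) y → v.len = j → ((e < a ∧ b = e) ∨ ∃ i, i < j ∧ b = a + i ∧ v.get i = e) →
  isub a (w ++ Wd.sg (a + j) ++ y) (v ++ Wd.sg e) = isub a (w ++ Wd.sg b ++ Wd.sub (a + j) b y) v

/-- **EB** (first occurrences and cuts in finite words).

PROOF. (1) As `v.len < j`, the letter `a + v.len` occurs in `w` (`VW`), so its first occurrence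
(`fo`, `lst_spec`, `lst_le`) is the same for `(w ++ s).get` and `w.get` and is `< w.len`, where the
entries agree. (2) The entries of `w` are `< a + j`, so the first occurrence of `a + j = a + v.len`
in `w ++ Wd.sg (a+j) ++ r` is `w.len`; `Wd.ext'`. (3) Clear from the definition `VW` (`s` is over
`a + j`, the last letter is `a + j`): a letter `a + (i+1)` of `s` with `i + 1 < j` has an occurrence of
`a + i` in `w`; if `i + 1 = j` then `a + i` occurs in `w` as `i < j`. -/
def G_EB : Prop := ∀ (M : Type) [World M] (a j : M),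
  (∀ w s v : Wd M, VW a j w → v.len < j → inst a (w ++ s).get v = inst a w.get v) ∧
  (∀ w r v : Wd M, Over (a + j) w → v.len = j →
    inst a (w ++ Wd.sg (a + j) ++ r).get v = isub a w v) ∧
  (∀ w s : Wd M, VW a j w → Over (a + j) s → VW a (j + 1) (w ++ s ++ Wd.sg (a + j)))

/-- **EC** (the step of Lemma 5), from `G_L1F`, `G_L4`, `G_BND`, `G_PSM`, `G_EA`, `G_EB`.

PROOF. Let `K` bound the codes of the words over `a + k + 1` of length `≤ j` (`G_BND`). For a word `y` let
`κ y = cd (Wd.of K (fun i => f (isub a (w ++ y) (dec i))))`; this is the code of a word over `ℓ` of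
length `K`, so it is `< K'` (`G_BND`). As `D(w) = Dw a k f w j` is contained in the union of the sets
`E κ₀ = {y | Dw a k f w j y ∧ κ y = κ₀}`, `κ₀ < K'`, `G_L1F` (with `G_PSM`) gives `κ₀` with
`E κ₀` PS over `a + j`, and `G_L4` gives `s` over `a + j` in `E κ₀` with `Ext (a+j) (E κ₀) s` PS over
`a + j + 1`. Let `w⁺ = w ++ s ++ Wd.sg (a+j)`. It remains (`G_PSM`) that every `y` over `a + j + 1` with
`Ext (a+j) (E κ₀) s y` satisfies `Dw a k f w⁺ (j+1) y`. Let `u, z` be given with
`u.len + 1 + z.len = j + 1`, `z = z₀ ++ Wd.sg e` (`Wd.exists_snoc`), `v₀ = u ++ Wd.sg (a+k) ++ z₀`, of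
length `j`. Let `b = e` if `e < a`; otherwise `e` is `a + i₀` with `i₀ ≤ k`, which occurs in `v₀`, say at the
position `i < j`, and `b = a + i`. By `G_EA` (with `w ++ s` for `w`)
`isub a (w⁺ ++ y) (v₀ ++ Wd.sg e) = isub a (w ++ y') v₀`, `y' = s ++ Wd.sg b ++ Wd.sub (a+j) b y`, and
`y' ∈ E κ₀`. If `z₀.len ≠ 0`, `Dw a k f w j y'` gives `f (..) = f (inst a w.get (u ++ Wd.sg (a+k)))`, and
`inst a w⁺.get (..) = inst a w.get (..)` by `G_EB` (1). If `z₀` is empty, then `v₀ = u ++ Wd.sg (a+k)`
has code `< K`, and `κ y' = κ₀ = κ s` gives `f (isub a (w ++ y') v₀) = f (isub a (w ++ s) v₀)`, which is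
`f (inst a w⁺.get v₀)` by `G_EB` (2) with `r = nil`. -/
def G_EC : Prop := ∀ (M : Type) [World M] (a k ℓ j : M) (f : Wd M → M) (w : Wd M), IFn M f →
  (∀ z, f z < ℓ) → VW a j w → PS (a + j) (Dw a k f w j) →
  ∃ s : Wd M, Over (a + j) s ∧ Dw a k f w j s ∧ PS (a + (j + 1))
    (Dw a k f (w ++ s ++ Wd.sg (a + j)) (j + 1))

/-- **ED** (the sequence of Lemma 5), from `G_REC`, `G_EB`, `G_EC`.

PROOF. Let `P j w s` say: `Over (a+j) s`, `Dw a k f w j s` and
`PS (a + (j + 1)) (Dw a k f (w ++ s ++ Wd.sg (a+j)) (j + 1))`; `s j = pick M (P j (F j))` where `F` is from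
`G_REC` with `x₀ = Wd.nil M` and `st (j, w) = w ++ pick M (P j w) ++ Wd.sg (a + j)`. By `ind`:
`VW a j (F j)` and `PS (a+j) (Dw a k f (F j) j)` (`j = 0`: `Dw` holds for all `y` since
`u.len + 1 + z.len = 0` is impossible, and the set of all words is PS with `p = 0`; step: `G_EC`,
`pick_spec`, `G_EB` (3)). -/
def G_ED : Prop := ∀ (M : Type) [World M] (a k ℓ : M) (f : Wd M → M), IFn M f → (∀ z, f z < ℓ) →
  ∃ F s : M → Wd M, IFn M F ∧ IFn M s ∧ F 0 = Wd.nil M ∧
    (∀ j, F (j + 1) = F j ++ s j ++ Wd.sg (a + j)) ∧ (∀ j, Over (a + j) (s j)) ∧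
    ∀ j, Dw a k f (F j) j (s j)

/-- **EE** (the limit word).

PROOF. `W p = (F (p + 1)).get p`. By `ind` on `m`: `F (j + m)` is `F j` followed by a word, and
`j ≤ (F j).len`, and `Over (a + j) (F j)`; so `W p = (F j).get p` for all `p < (F j).len`. The letter
`a + j` occurs in `W` at the position `(F j ++ s j).len`, and this is its first occurrence. So `OW a W`
(the letter `a + (i+1)` first occurs after the position `(F i ++ s i).len` of `a + i`), and
`inst a W v = isub a (F v.len ++ s v.len) v` (`Wd.ext'`). If `v.len < j` then the first occurrence of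
`a + v.len` is `< (F j).len` and the last claim follows. -/
def G_EE : Prop := ∀ (M : Type) [World M] (a : M) (F s : M → Wd M), IFn M F → IFn M s →
  F 0 = Wd.nil M → (∀ j, F (j + 1) = F j ++ s j ++ Wd.sg (a + j)) → (∀ j, Over (a + j) (s j)) →
  ∃ W : M → M, IFn M W ∧ OW a W ∧ (∀ v : Wd M, inst a W v = isub a (F v.len ++ s v.len) v) ∧
    ∀ (j : M) (v : Wd M), v.len < j → inst a (F j).get v = inst a W v

/-- **PREH** (Lemma 5), from `G_ED`, `G_EE`.

PROOF. Take `F, s, W`. Let `v = u ++ Wd.sg (a+k) ++ z`, `j = v.len`. `z` empty: clear. Otherwise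
`f (inst a W v) = f (isub a (F j ++ s j) v) = f (inst a (F j).get (u ++ Wd.sg (a+k)))`
`= f (inst a W (u ++ Wd.sg (a+k)))`. -/
def G_PREH : Prop := ∀ (M : Type) [World M] (a k ℓ : M) (f : Wd M → M), IFn M f →
  (∀ z, f z < ℓ) → ∃ W : M → M, IFn M W ∧ OW a W ∧ ∀ u z : Wd M, VW a k u →
    Over (a + k + 1) z → f (inst a W (u ++ Wd.sg (a + k) ++ z)) = f (inst a W (u ++ Wd.sg (a + k)))

/-- **OWL** (first occurrences in omega-variable words).

PROOF. (1) `lst_spec`. (2) Suppose `W p = a + i + m` with `p < fo a W i`. By `ind` on `m` (for all `p`,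
internal): there is `q ≤ p` with `W q = a + i` (the second part of `OW`); but `fo a W i ≤ q` (`lst_le`).
(3) `W (fo a W i') = a + i'` is not `< a + i`, so `fo a W i ≤ fo a W i'` by (2), and they are different as
the letters are. (4) `lst_le`. -/
def G_OWL : Prop := ∀ (M : Type) [World M] (a : M) (W : M → M), IFn M W → OW a W →
  (∀ i, W (fo a W i) = a + i) ∧ (∀ i p, p < fo a W i → W p < a + i) ∧
  (∀ i i', i < i' → fo a W i < fo a W i') ∧ ∀ i p, W p = a + i → fo a W i ≤ p

/-- The composition of omega-variable words. -/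
noncomputable def cmp {M : Type} [World M] (a : M) (W U : M → M) : M → M :=
  fun p => if W p < a then W p else U (W p - a)

instance {M : Type} [World M] (a : M) (W U : M → M) [IFn M W] [IFn M U] : IFn M (cmp a W U) := by
  unfold cmp
  infer_instance

/-- **COMP**, from `G_OWL`.

PROOF. `fo a (cmp a W U) i = fo a W (fo a U i)`: at this position `W` has the letter
`a + fo a U i`, so `cmp` has `U (fo a U i) = a + i`; for `p` before it `W p < a + fo a U i`, so
`cmp a W U p` is `W p < a` or `U q` with `q < fo a U i`, which is `< a + i` (`G_OWL`). `OW`: occurrences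
are clear; if `cmp a W U p = a + (i+1)`, then the first occurrence of `a + (i + 1)` is `≤ p` and
`fo a W (fo a U i) < fo a W (fo a U (i+1))` (the letter `a + (i+1)` is not at an earlier position by the
above). Instances: the lengths are `fo a (cmp a W U) v.len` and `fo a W (fo a U v.len)`; entries: if
`W p < a` both are `W p`; otherwise `W p - a < fo a U v.len` and both are `U (W p - a)` if this is
`< a` and `v.get (U (W p - a) - a)` otherwise. -/
def G_COMP : Prop := ∀ (M : Type) [World M] (a : M) (W U : M → M), IFn M W → IFn M U →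
  OW a W → OW a U → OW a (cmp a W U) ∧ ∀ v : Wd M, inst a (cmp a W U) v = inst a W (inst a U v)

/-- **PREF**, from `G_OWL`.

PROOF. Let `v = u ++ Wd.sg e ++ z`, `q = fo a W u.len`, `q < fo a W v.len`. For `p < q`: `W p < a` or
`W p - a < u.len`, where the entries of `u` and `v` agree; at `q` the letter is `v.get u.len = e`. Let
`z' = Wd.of (fo a W v.len - (q + 1)) (fun i => (inst a W v).get (q + 1 + i))`. Its letters are letters
`W p < a ≤ c` or letters of `v` (as `W p - a < v.len` for `p < fo a W v.len`). -/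
def G_PREF : Prop := ∀ (M : Type) [World M] (a : M) (W : M → M), IFn M W → OW a W →
  ∀ (u : Wd M) (e : M) (z : Wd M), ∃ z' : Wd M, inst a W (u ++ Wd.sg e ++ z) =
    inst a W u ++ Wd.sg e ++ z' ∧ ∀ c, a ≤ c → Over c (u ++ Wd.sg e ++ z) → Over c z'

/-- **VWI**, from `G_OWL`.

PROOF. `x = inst a U v`, `x.len = fo a U v.len`, and for `p < x.len` either `U p < a` and `x.get p = U p`, or
`U p = a + m` with `m < v.len` and `x.get p = v.get m`. So the letters are `< a + n`. If
`v.get m = a + i` (`m < v.len`) then `x.get (fo a U m) = a + i` and `fo a U m < x.len`. Order: if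
`x.get p = a + (i+1)` then `U p = a + m`, `v.get m = a + (i + 1)`, there is `m' < m` with
`v.get m' = a + i`, and `q = fo a U m' < fo a U m ≤ p`. -/
def G_VWI : Prop := ∀ (M : Type) [World M] (a n : M) (U : M → M), IFn M U → OW a U →
  ∀ v : Wd M, VW a n v → VW a n (inst a U v)

/-- **DEC** (decomposition of variable words).

PROOF. Let `q` be the least position of the letter `a + k` in `v` (`exists_least`),
`u = Wd.of q v.get`, `z = Wd.of (v.len - (q+1)) (fun i => v.get (q + 1 + i))`. The letters of `u` are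
`< a + k + 1` and not `a + k`. For `i < k` the letter `a + i` occurs before `q`: by `ind` on `m`: if
`i + m = k` then there is a position `≤ q` .. more precisely, for all `m ≤ k` the letter `a + (k - m)` occurs
at a position `≤ q`, and `< q` if `m ≥ 1` (third part of `VW`). The order property of `u` is that of
`v`. Conversely (second claim) `u ++ Wd.sg (a + k) ++ z` is a `(k+1)`-variable word. -/
def G_DEC : Prop := ∀ (M : Type) [World M] (a k : M),
  (∀ v : Wd M, VW a (k + 1) v → ∃ u z : Wd M, VW a k u ∧ Over (a + k + 1) z ∧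
    v = u ++ Wd.sg (a + k) ++ z) ∧
  (∀ u z : Wd M, VW a k u → Over (a + k + 1) z → VW a (k + 1) (u ++ Wd.sg (a + k) ++ z))

/-- The Carlson-Simpson theorem for `n`-variable words over the alphabet `a` in the world. -/
def OVWw (M : Type) [World M] (n a : M) : Prop := ∀ (ℓ : M) (f : Wd M → M), IFn M f →
  (∀ z, f z < ℓ) → ∃ W : M → M, IFn M W ∧ OW a W ∧ ∃ c : M, ∀ v : Wd M, VW a n v →
    f (inst a W v) = c

/-- **TZ** (words without variables), from `G_PREH`, `G_OWL`.

PROOF. `VW a 0 v` says that `v` is over `a`. `a = 0`: then `v` is empty; take `W p = p` and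
`c = f (inst 0 W nil)`. `a > 0`: apply `G_PREH` with `k = 0` to `f' z = f (Wd.sub a 0 z)` (`u = nil`): `W` with
`f (Wd.sub a 0 (inst a W (Wd.sg a ++ z)))` constant for `z` over `a + 1`. Let `W' p` be `W p` if `W p < a`,
`0` if `W p = a`, and `W p - 1` otherwise. Then `fo a W' i = fo a W (i + 1)`, `OW a W'`, and
`inst a W' v = Wd.sub a 0 (inst a W (Wd.sg a ++ v))` for `v` over `a` (entry by entry). -/
def G_TZ : Prop := ∀ (M : Type) [World M] (a : M), OVWw M 0 a

/-- **TS** (from `k` to `k + 1` variables), from `G_PREH`, `G_COMP`, `G_PREF`, `G_VWI`, `G_DEC`.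

PROOF. Let `W` be from `G_PREH` for `f`, `k`, and apply the hypothesis to
`g u = f (inst a W (u ++ Wd.sg (a + k)))`: `U`, `c`. The solution is `cmp a W U`. Let `v` be a
`(k+1)`-variable word, `v = u ++ Wd.sg (a+k) ++ z` (`G_DEC`). `inst a U v = inst a U u ++ Wd.sg (a+k) ++ z'`
with `z'` over `a + k + 1` (`G_PREF`), `inst a U u` is a `k`-variable word (`G_VWI`). So
`f (inst a (cmp a W U) v) = f (inst a W (inst a U v)) = f (inst a W (inst a U u ++ Wd.sg (a+k)))`
`= g (inst a U u) = c`. -/
def G_TS : Prop := ∀ (M : Type) [World M] (k a : M), OVWw M k a → OVWw M (k + 1) a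

/-- **FA** (strict codes in a world; `L2of M w` is the structure given by the world).

PROOF. (1) As in `ev_exists` (`Words.lean`): with `B` a bound for `pr i (g i)`, `i < k` (`bdd`), `e` from `code` for
the set of the `pr i (g i)`, `i < k`, and `B`; here one may take `e = pr m n` because
`Ecd e _` holds only for such `e` (if `k = 0` take `m = n = 0`). The entry `i` is the least `v` with
`Bit m n (pair i v)`: if `v' < g i` then `pr i v' < B` (`pr_lt`), so `Bit` fails. `(L2of M w).Bit m n z` is
`∃ c, n = (m * (z + 1) + 1) * c`, i.e. `Ecd (pr m n) z` (`pr_inj`); `(L2of M w).pair` is `pr` (by `rfl`).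
(2) `ev (pr m n) i = g i` for `i < k` (`lst`): the entry is unique. So `c = pr k (pr m n)` and
`(Wd.of k (ev (pr m n))).get i = g i` for `i < k`. -/
def G_FA : Prop := ∀ (M : Type) (w : World M),
  (∀ (k : M) (g : M → M), @IFn M w M M _ _ g → ∃ c : M, (L2of M w).Codes c k g) ∧
  (∀ (c k : M) (g : M → M), (L2of M w).Codes c k g → ∃ v : @Wd M w, v.len = k ∧
    ∀ i, i < k → v.get i = g i)

/-- **FB** (the theorem in the structure of a world), from `G_FA`.

PROOF. Let `A = L2of M w` and `f` a colouring. `A.InS F` means `IFn M F` (the set `{z | ∃ x, z = pr x (F x)}` is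
the code set of the graph, `IFn.g`, `IP.mem`, `cset`); `A.num n = (n : M)`, `A.IsVarWord n a k g` is `VW a n v`
for a word `v` of length `k` with `v.get i = g i` for `i < k`, `A.IsOmegaWord a W` is `OW a W` (all
by `Iff.rfl`/`simp`). For a word `z` let `f' z = f (c)` with `c` the least number such that
`A.Codes c z.len z.get` (`lst`; exists by `G_FA` (1)), if `f c < l`, and `0` otherwise; it is internal
(`A.Codes c z.len z.get` is an internal predicate of `(c, z)`: unfold to `∃ m n, c = pr z.len (pr m n) ∧ ..`), and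
`f' z < l`. Take `W, c` from the hypothesis for `f'`. Let `v, k, g` be given, `v'` the word of
`G_FA` (2); it is an `n`-variable word. `q = fo a W k`, `h = (inst a W v').get`, `d` a code of it. Then
`IsSubst`: `lst_spec`, `lst_le`, and the entries of `inst`. `inst a W v'` is an `n`-variable word
(`G_VWI`), so `f d = f' (inst a W v') = c`. There is an `n`-variable word (e.g. `a, a+1, .., a+n-1`),
so `c < l`. -/
def G_FB : Prop := G_FA → G_VWI → ∀ (n : ℕ) (M : Type) (w : World M),
  (∀ a : M, @OVWw M w (n : M) a) → (L2of M w).SatOVW n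

/-- **FC** (assembly), from all the goals of part 2, `G_ALGA`, `G_ALGB`, `G_ALGC`.

PROOF. `OVWw M (n : M) a` for all worlds by induction on `n : ℕ` (`G_TZ`, `G_TS`); `G_FB`; a model of
ACA_0 is `L2of A.M w` for a world (`G_ALGC`), rewrite. -/
def G_FC : Prop := G_ALGA → G_ALGB → G_ALGC → G_TZ → G_TS → G_FA → G_FB → G_VWI →
  ∀ (n : ℕ) (A : L2Structure), IsModelACA0 A → A.SatOVW n

end Pool.Agent.Helper6.CS
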