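import Pool.Agent.Helper6.CS.Comb

/-!
# Project CS (MP_81e84b_lc): goals, part 1

Words are elements of `Wd M` (`Words.lean`, `Api.lean`), `cd w : M` (`Cod.cd w`) is the code, `dec` the
decoding (`dec_cd`), `ev e i` the entry `i` of the finite function coded by `e`, `apn e z = ev e (cd z)`,
`apw h z = dec (ev h (cd z))`. `ev_exists`: every internal function is coded on every initial segment.
Letters are elements of `M`, `Over b w`: all letters of `w` are `< b`.
-/

namespace Pool.Agent.Helper6.CS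

set_option synthInstance.maxSize 1000000000

/-- **REC** (recursion theorem).

PROOF. Let `R n x` say: there is `w : Wd M` with `w.len = n + 1`, `w.get 0 = cd x₀`, for all `i < n`
there is `y : Wd M` with `w.get i = cd y` and `w.get (i + 1) = cd (st (i, y))`, and
`w.get n = cd x`. By `ind`: for every `n` there is exactly one `x` with `R n x` (existence: append
the letter `cd (st (n, x))` to `w`; uniqueness: two such `w` agree at all `i ≤ n` by `ind`), and
`R (n+1) (st (n, x))` if `R n x`. Put `F n = pick M (R n)` (`pick_spec`, `IFn.pick`). -/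
def G_REC : Prop := ∀ (M : Type) [World M] (x₀ : Wd M) (st : M × Wd M → Wd M), IFn M st →
  ∃ F : M → Wd M, IFn M F ∧ F 0 = x₀ ∧ ∀ n : M, F (n + 1) = st (n, F n)

/-- **BND** (words of bounded length over a bounded alphabet have bounded codes).

PROOF. Induction (`ind`) on `N`. `N = 0`: only the empty word (`Wd.eq_nil_of_len`). Step: let `K` be
a bound for `N`. A word of length `≤ N + 1` over `L` is of length `≤ N` or `s ++ Wd.sg e` with
`s.len = N`, `e < L` (`Wd.exists_snoc`), `s = dec (cd s)`, `cd s < K`. For every `e` there is `B` with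
`cd (dec c ++ Wd.sg e) < B` for all `c < K` (`bdd`); by `coll` for the relation
`R e B := ∀ c, c < K → cd (dec c ++ Wd.sg e) < B` there is one bound for all `e < L`. -/
def G_BND : Prop := ∀ (M : Type) [World M] (L N : M), ∃ K : M,
  ∀ a : Wd M, Over L a → a.len ≤ N → (Cod.cd a : M) < K

/-- **CDF** (internal functions on words of bounded length are coded), from `G_BND`.

PROOF. Let `K` be from `G_BND` and apply `ev_exists` to `fun c => F (dec c)` (to
`fun c => cd (G (dec c))` in the second case) and `K`; `dec_cd`. -/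
def G_CDF : Prop := ∀ (M : Type) [World M] (L N : M),
  (∀ F : Wd M → M, IFn M F → ∃ h : M, ∀ a : Wd M, Over L a → a.len ≤ N → apn h a = F a) ∧
  (∀ F : Wd M → Wd M, IFn M F → ∃ h : M, ∀ a : Wd M, Over L a → a.len ≤ N → apw h a = F a)

/-- **PH** (pigeonhole principle).

PROOF. First for coded functions: `∀ e, (∀ i ≤ N, ev e i < N) → ∃ i j, i < j ∧ j ≤ N ∧ ev e i = ev e j`
by `ind` on `N`. `N = 0`: `ev e 0 < 0` is impossible. `N + 1`: if the value `N` is taken at most once
on `{0, .., N + 1}`, at `i₀` (or not at all, then let `i₀ = N + 1`), let `e'` code `i ↦ ev e i` for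
`i < i₀` and `i ↦ ev e (i + 1)` for `i₀ ≤ i ≤ N` (`ev_exists`); its values are `< N` on `{0, .., N}`;
use the induction hypothesis. Then an internal function `g` is coded on `{0, .., N}`
(`ev_exists`). -/
def G_PH : Prop := ∀ (M : Type) [World M] (g : M → M), IFn M g → ∀ N : M,
  (∀ i, i ≤ N → g i < N) → ∃ i j : M, i < j ∧ j ≤ N ∧ g i = g j

/-- **PSM** (monotonicity of PS). PROOF. Clear: `t ++ g ++ y` is over `b`. -/
def G_PSM : Prop := ∀ (M : Type) [World M] (b : M) (D E : Wd M → Prop),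
  (∀ w, Over b w → D w → E w) → PS b D → PS b E

/-- **L1** (PS sets are partition regular).

PROOF. Let `p` be for `D₁ ∨ D₂` and suppose `D₂` is not PS: for `p` there is `q'` such that for all
`y'` over `b` there is `g'` over `b`, `g'.len ≤ q'`, with `¬ D₂ (t ++ g' ++ y')` for all `t` over
`b` of length `≤ p`. `D₁` is PS with `p + q'`: given `q` take `y` for `q + q'` (the hypothesis). Given `g`,
`g.len ≤ q`, take `g'` for `y' = g ++ y`. As `(g' ++ g).len ≤ q + q'` there is `t`, `t.len ≤ p`,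
with `t ++ (g' ++ g) ++ y` in `D₁ ∨ D₂`, not in `D₂`, so in `D₁`; use `t ++ g'`. -/
def G_L1 : Prop := ∀ (M : Type) [World M] (b : M) (D₁ D₂ : Wd M → Prop),
  PS b (fun w => D₁ w ∨ D₂ w) → PS b D₁ ∨ PS b D₂

/-- **L1F** (finite unions), from `G_L1`, `G_PSM`.

PROOF. `ind` on `N`: `∃ k < N + 1, E k w` is `(∃ k < N, E k w) ∨ E N w`. `N = 0`: the empty set is
not PS (take `q = 0`, `g` empty). The predicate is internal by `inferInstance` (`IP.PS`). -/
def G_L1F : Prop := ∀ (M : Type) [World M] (b : M) (E : M → Wd M → Prop),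
  IP M (fun p : M × Wd M => E p.1 p.2) → ∀ N : M, PS b (fun w => ∃ k, k < N ∧ E k w) →
    ∃ k, k < N ∧ PS b (E k)

/-- **L2** (one word for many tails).

PROOF. `ind` on `N`, for all `p`. `N = 0`: `q = 0`, `g` empty. `N + 1`: let `q₁` be for `N` and `p`; let
`q₂` witness that `E N` is not PS, for `p + q₁`: for all `y` over `b` there is `g₂` over `b`,
`g₂.len ≤ q₂`, with `¬ E N (t ++ g₂ ++ y)` for all `t` over `b` with `t.len ≤ p + q₁`. Let
`q = q₁ + q₂`. Given `e`, take `g₂` for `y = dec (ev e N)`, and let `e'` code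
`k ↦ cd (g₂ ++ dec (ev e k))` for `k < N` (`ev_exists`), `g₁` from the induction hypothesis for
`e'`, `g = g₁ ++ g₂`: for `k < N`: `t ++ g ++ dec (ev e k) = t ++ g₁ ++ dec (ev e' k)`; for `k = N`:
`(t ++ g₁).len ≤ p + q₁`. The statement for `N` (`∀ p, ∃ q, ∀ e, ..`) is internal by
`inferInstance`. -/
def G_L2 : Prop := ∀ (M : Type) [World M] (b : M) (E : M → Wd M → Prop),
  IP M (fun p : M × Wd M => E p.1 p.2) → (∀ k, ¬ PS b (E k)) → ∀ N p : M, ∃ q : M, ∀ e : M,
    (∀ k, k < N → Over b (dec (ev e k))) → ∃ g : Wd M, Over b g ∧ g.len ≤ q ∧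
      ∀ k, k < N → ∀ t : Wd M, Over b t → t.len ≤ p → ¬ E k (t ++ g ++ dec (ev e k))

/-- **NP**, from `G_L2`, `G_BND`.

PROOF. Let `K` bound the codes of the words over `b` of length `≤ Λ` and of the words over `b` of
length `≤ m` (`G_BND`), and let `N = pr K K`, so `pr (cd s) (cd β) < N` (`pr_lt`). Let `E k y` say: there are
`s, β` with `k = pr (cd s) (cd β)`, `Over b s`, `D s`, `Ext b D s y`. Each `E k` is not PS (over
`b + 1`): `s` is determined by `k`, so `E k` is empty or contained in `Ext b D s` (monotonicity of PS).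
Apply `G_L2` over `b + 1` to `E`, `N`, `p`. Given `h`, let `e` code the function which maps
`k` to `cd (apw h β)` if `k = pr (cd s) (cd β)` with `Over b β`, `β.len ≤ m`, and to `cd nil`
otherwise (`ev_exists`, `pick`). -/
def G_NP : Prop := ∀ (M : Type) [World M] (b : M) (D : Wd M → Prop), IP M D →
  (∀ s, Over b s → D s → ¬ PS (b + 1) (Ext b D s)) → ∀ Λ m p : M, ∃ q : M, ∀ h : M,
    (∀ β, Over b β → β.len ≤ m → Over b (apw h β)) → ∃ g : Wd M, Over (b + 1) g ∧ g.len ≤ q ∧
      ∀ s β t : Wd M, Over b s → D s → s.len ≤ Λ → Over b β → β.len ≤ m → Over (b + 1) t →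
        t.len ≤ p → ¬ Ext b D s (t ++ g ++ apw h β)

/-! ### The finite theorem (Lemma 3) -/

/-- A system: the coded function `apw h` maps words of length `≤ k` to words of length `≤ N`, all
letters `< L`; it commutes with the replacement of letters `x ≥ b`, and the image of
`a ++ e ++ a'` begins with (image of `a`) followed by `e`. (The maps `a ↦ w[a]` given by `k`-variable
words `w` over the alphabet `b` are of this form.) -/
def Sys {M : Type} [World M] (L b k N h : M) : Prop :=
  (∀ (a : Wd M) (c : M), b ≤ c → c ≤ L → Over c a → a.len ≤ k →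
    Over c (apw h a) ∧ (apw h a).len ≤ N) ∧
  (∀ (a : Wd M) (x c : M), Over L a → a.len ≤ k → b ≤ x → x < L → c < L →
    apw h (Wd.sub x c a) = Wd.sub x c (apw h a)) ∧
  (∀ (a : Wd M) (e : M) (a' : Wd M), Over L a → e < L → Over L a' → a.len + (a'.len + 1) ≤ k →
    ∃ z : Wd M, Over L z ∧ apw h (a ++ Wd.sg e ++ a') = apw h a ++ Wd.sg e ++ z)

/-- The colouring coded by `e` has colours `< r` on the words over `L` of length `≤ N`. -/
def ColB {M : Type} [World M] (L N r e : M) : Prop := ∀ z : Wd M, Over L z → z.len ≤ N → apn e z < r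

/-- Shelah's lemma: the letters `b` and `b + 1` can be made indistinguishable. -/
def SH {M : Type} [World M] (L b m r N : M) : Prop := ∀ e : M, ColB L N r e →
  ∃ h : M, Sys L (b + 2) m N h ∧ ∀ a : Wd M, Over L a → a.len ≤ m →
    apn e (apw h a) = apn e (apw h (Wd.sub (b + 1) b a))

/-- Level homogeneous systems over the alphabet `b`. -/
def LH {M : Type} [World M] (L b k r N : M) : Prop := ∀ e : M, ColB L N r e →
  ∃ h : M, Sys L b k N h ∧ ∀ a a' : Wd M, Over b a → Over b a' → a.len ≤ k → a.len = a'.len →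
    apn e (apw h a) = apn e (apw h a')

/-- **LH0** (alphabets with at most one letter), from `G_CDF`.

PROOF. `h` codes the identity on the words over `L` of length `≤ k` (`G_CDF`), `N = k`. Two words
over `0` or over `1` of the same length are equal (`Wd.ext'`, all letters are `0`); `1 ≤ L` in the
second case. -/
def G_LH0 : Prop := ∀ (M : Type) [World M] (L k r : M), LH L 0 k r k ∧ (1 ≤ L → LH L 1 k r k)

/-- The word `c c .. c` (`n` times). -/
noncomputable def rep {M : Type} [World M] (c n : M) : Wd M := Wd.of n fun _ => c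

/-- The block `b^i e^(i'-i) (b+1)^(n-i')`. -/
noncomputable def blk {M : Type} [World M] (b i i' n e : M) : Wd M :=
  rep b i ++ rep e (i' - i) ++ rep (b + 1) (n - i')

/-- **SHB** (adding a block to a system), from `G_CDF`.

PROOF. Let `F a` be `rep b i` if `a.len = 0` and `blk b i i' n (a.get 0) ++ apw h' (tail a)` otherwise,
`tail a = Wd.of (a.len - 1) (fun j => a.get (1 + j))`. `F` is internal (`inferInstance` after
unfolding; prove the instance for `rep` first); let `h` code `F` on the words over `L` of length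
`≤ m + 1` (`G_CDF`). Every nonempty word is `Wd.sg e ++ a'` (`Wd.exists_cons`). Check `Sys`. (1) Letters
and lengths: `b, b + 1 < c`, `(blk ..).len = n`. (2) `x ≥ b + 2`: `Wd.sub x c` fixes `rep b _`,
`rep (b+1) _`, maps `rep e _` to `rep (if e = x then c else e) _`, and commutes with `tail`; use the
property of `h'`. (3) `a` empty: `rep e (i' - i) = Wd.sg e ++ rep e (i' - i - 1)` as `i < i'`.
`a = Wd.sg e₀ ++ a₁`: `F (a ++ e ++ a') = blk ++ apw h' (a₁ ++ e ++ a')`, use the property of `h'`. -/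
def G_SHB : Prop := ∀ (M : Type) [World M] (L b m n N' h' i i' : M), b + 2 ≤ L → i < i' →
  i' ≤ n → Sys L (b + 2) m N' h' → ∃ h : M, Sys L (b + 2) (m + 1) (n + N') h ∧
    apw h (Wd.nil M) = rep b i ∧ ∀ (e : M) (a : Wd M), e < L → Over L a → a.len ≤ m →
      apw h (Wd.sg e ++ a) = blk b i i' n e ++ apw h' a

/-- **SH0**, from `G_CDF`. PROOF. `m = 0`, `N = 0`: `h` codes `nil ↦ nil`. -/
def G_SH0 : Prop := ∀ (M : Type) [World M] (L b r : M), SH L b 0 r 0

/-- **SHS** (the induction step of Shelah's lemma), from `G_SHB`, `G_BND`, `G_CDF`, `G_PH`.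

PROOF. Given `r` (if `r = 0` there is no colouring as `nil` has a colour: `N = 0` works; so let
`1 ≤ r`). Let `K` bound the codes of the words over `L` of length `≤ m` (`G_BND`) and `n` bound the
codes of the words over `r` of length `≤ K`. Let `K₂` bound the codes of the words over `L` of length
`≤ n`, and `r'` the codes of the words over `r` of length `≤ K₂`. Let `N'` be from the hypothesis for
`r'`, `N = n + N'`. Let `e` be a colouring, `c z = apn e z`. For a word `z` let
`V z = Wd.of K₂ (fun j => if Over L (dec j) ∧ (dec j).len ≤ n then c (dec j ++ z) else 0)`; for `z` over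
`L`, `z.len ≤ N'`, it is a word over `r`, so `cd (V z) < r'`. Let `e'` code `z ↦ cd (V z)` on the words
over `L` of length `≤ N'` (`G_CDF`), `h'` from the hypothesis for `e'`. As `cd` is injective,
`c (α ++ apw h' a) = c (α ++ apw h' (Wd.sub (b+1) b a))` for all `α` over `L` of length `≤ n` and `a` over
`L` of length `≤ m` (take `j = cd α < K₂`). For `i ≤ n` let `u i = rep b i ++ rep (b+1) (n - i)` and
`U i = Wd.of K (fun j => if Over L (dec j) ∧ (dec j).len ≤ m then c (u i ++ apw h' (dec j)) else 0)`, a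
word over `r` of length `K`, so `cd (U i) < n`. By `G_PH` (for `i ↦ if i ≤ n then cd (U i) else 0`) there are
`i < i' ≤ n` with `U i = U i'`, so `c (u i ++ apw h' a) = c (u i' ++ apw h' a)` for all `a` over `L` of
length `≤ m`. Take `h` from `G_SHB`. Invariance for `a = nil` is trivial (`Wd.sub_nil`). For
`a = Wd.sg e₀ ++ a'`: `c (apw h a) = c (blk .. e₀ ++ apw h' a')
= c (blk .. e₀ ++ apw h' (Wd.sub (b+1) b a'))`, and if `e₀ = b + 1` then `blk .. (b+1) = u i` and
`blk .. b = u i'` (`rep c x ++ rep c y = rep c (x + y)`, lengths). -/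
def G_SHS : Prop := ∀ (M : Type) [World M] (L b m : M), b + 2 ≤ L →
  (∀ r, ∃ N, SH L b m r N) → ∀ r, ∃ N, SH L b (m + 1) r N

/-- **LHS** (the induction step for level homogeneous systems), from `G_CDF`.

PROOF. Given `k, r`, let `N₂` be with `LH L (b+1) k r N₂`, and `N₁` with `SH L b N₂ r N₁`; `N = N₁`. Given
a colouring `e`, let `h₁` be from `SH`, `e₂` code `z ↦ apn e (apw h₁ z)` on the words over `L` of length
`≤ N₂` (`G_CDF`), `h₂` from `LH` for `e₂`, and let `h` code `a ↦ apw h₁ (apw h₂ a)` on the words over `L` of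
length `≤ k`. `Sys L (b+2) k N₁ h`: (1), (2) clear (`h₂` is a system over `b + 1 ≤ b + 2`). (3)
`apw h₂ (a ++ e ++ a') = apw h₂ a ++ e ++ z`, its length is `≤ N₂`, apply (3) of `h₁`. Level
homogeneity: let `a` be over `b + 2`, `a* = Wd.sub (b+1) b a`, which is over `b + 1` (`Over.sub`).
`apn e (apw h₁ (apw h₂ a)) = apn e (apw h₁ (Wd.sub (b+1) b (apw h₂ a)))` (invariance of `h₁`)
`= apn e (apw h₁ (apw h₂ a*))` ((2) of `h₂`) `= apn e₂ (apw h₂ a*)`, which depends only on
`a*.len = a.len`. -/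
def G_LHS : Prop := ∀ (M : Type) [World M] (L b : M), b + 2 ≤ L →
  (∀ m r, ∃ N, SH L b m r N) → (∀ k r, ∃ N, LH L (b + 1) k r N) → ∀ k r, ∃ N, LH L (b + 2) k r N

/-- **LHA** (assembly), from `G_LH0`, `G_SH0`, `G_SHS`, `G_LHS`.

PROOF. `SH`: `ind` on `m` for `∀ r, ∃ N, SH L b m r N`. `LH`: `b = 0` is `G_LH0`; then `ind` on `b` for
`b + 1 ≤ L → ∀ k r, ∃ N, LH L (b + 1) k r N`. Internality by `inferInstance` after
`unfold SH LH Sys ColB` (or make instances). -/
def G_LHA : Prop := ∀ (M : Type) [World M] (L b : M), b ≤ L → ∀ k r, ∃ N, LH L b k r N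

/-- **CS1** (Lemma 3), from `G_LHA`, `G_PH`, `G_CDF`.

PROOF. `b = 0`: `N = 1`, `σ = nil`, `τ = nil`. Let `1 ≤ b`, `L = b + 1`, `N` from `G_LHA` for `L`, `b`, `k = r`,
`r`. Given `c`: the colouring on the words over `L` is `c' z = c z` if `Over b z`, and `0` otherwise
(`1 ≤ r` since `nil` has a colour), coded by `e` (`G_CDF`). Get `h`. The colour `γ i` of
`apw h (rep 0 i)`, `i ≤ r`, is `< r` (the word is over `b` by (1) with `c = b`), so by `G_PH` there are
`i < j ≤ r` with `γ i = γ j`. Let `σ = apw h (rep 0 i)`; by (3),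
`apw h (rep 0 i ++ Wd.sg b ++ rep 0 (j - i - 1)) = σ ++ Wd.sg b ++ τ`. For `a < b`, replacing `b` by `a`
((2) with `x = b`; `Wd.sub b a σ = σ` since `σ` is over `b`):
`σ ++ Wd.sg a ++ Wd.sub b a τ = apw h (rep 0 i ++ Wd.sg a ++ rep 0 (j - i - 1))`, a word over `b`, of
level `j`, so its colour is `γ j = γ i = c σ`. -/
def G_CS1 : Prop := ∀ (M : Type) [World M] (b r : M), ∃ N : M, ∀ c : Wd M → M, IFn M c →
  (∀ z, Over b z → z.len ≤ N → c z < r) → ∃ σ τ : Wd M, Over b σ ∧ Over (b + 1) τ ∧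
    σ.len + (τ.len + 1) ≤ N ∧ ∀ a, a < b → c (σ ++ Wd.sg a ++ Wd.sub b a τ) = c σ

/-! ### Lemma 4 -/

/-- The data of a PS set. -/
def PSd {M : Type} [World M] (b p : M) (D : Wd M → Prop) : Prop :=
  ∀ q : M, ∃ y : Wd M, Over b y ∧ ∀ g : Wd M, Over b g → g.len ≤ q →
    ∃ t : Wd M, Over b t ∧ t.len ≤ p ∧ D (t ++ g ++ y)

/-- The statement `Cl(m)` of the paper. -/
def Cl {M : Type} [World M] (b p : M) (D : Wd M → Prop) (m : M) : Prop := ∀ Λ : M, ∃ h : M,
  (∀ β, Over b β → β.len ≤ m → Over b (apw h β)) ∧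
  (∀ g β, Over b g → g.len ≤ Λ → Over b β → β.len ≤ m →
    ∃ t, Over b t ∧ t.len ≤ p ∧ D (t ++ g ++ apw h β)) ∧
  (∀ α σ τ, Over b α → α.len ≤ Λ → Over b σ → Over (b + 1) τ → σ.len + (τ.len + 1) ≤ m →
    ¬ (D (α ++ apw h σ) ∧ ∀ c, c < b → D (α ++ apw h (σ ++ Wd.sg c ++ Wd.sub b c τ)))) ∧
  (∀ s u τ, Over b s → D s → s.len ≤ Λ → Over (b + 1) u → u.len ≤ Λ → Over (b + 1) τ →
    τ.len ≤ m → (∃ i, i < τ.len ∧ τ.get i = b) →
    ¬ ∀ c, c < b → D (s ++ Wd.sg c ++ Wd.sub b c u ++ apw h (Wd.sub b c τ)))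

/-- **CL0**, from `G_CDF`. PROOF. `h` codes `nil ↦ y`, `y` from `PSd` for `q = Λ`. -/
def G_CL0 : Prop := ∀ (M : Type) [World M] (b p : M) (D : Wd M → Prop), IP M D → PSd b p D →
  Cl b p D 0

/-- **CLS**, from `G_NP`, `G_CDF`.

PROOF. See the proof of Lemma 4 in `Paper.lean`. Given `Λ` let `Y` be the word of `PSd` for `q = Λ`,
`Λ₁ = Λ + Y.len + 1`, `q'` from `G_NP` for `Λ₁, m, p := Λ₁`, `Λ₂ = Λ₁ + q' + 1`, `h'` from `Cl m` for
`Λ₂`, `g₀` from `G_NP` for `h'`. Let `F β = Y` if `β.len = 0` and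
`F β = Y ++ Wd.sg e ++ Wd.sub b e g₀ ++ apw h' β'` if `β = Wd.sg e ++ β'` (`e = β.get 0`,
`β' = Wd.of (β.len - 1) (fun j => β.get (1 + j))`), `h` codes `F` on the words over `b` of length
`≤ m + 1` (`G_CDF`). (I) `β = nil`: `PSd`. `β = e β'`: use (I) of `h'` with
`g := g ++ Y ++ Wd.sg e ++ Wd.sub b e g₀`. (P) `σ = e σ'`: use (P) of `h'` with
`α := α ++ Y ++ Wd.sg e ++ Wd.sub b e g₀`. `σ = nil`: `s = α ++ Y` is in `D`, `s.len ≤ Λ₁`, and
`α ++ F (Wd.sg c ++ Wd.sub b c τ) = s ++ Wd.sg c ++ Wd.sub b c g₀ ++ apw h' (Wd.sub b c τ)`. If `τ`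
contains `b` use (Q) of `h'` with `u = g₀`; otherwise `τ` is over `b`, `Wd.sub b c τ = τ`
(`Wd.sub_of_over`) and this says `Ext b D s (nil ++ g₀ ++ apw h' τ)`
(`Wd.sub b c (apw h' τ) = apw h' τ`), against the choice of `g₀`. (Q) `τ = e τ'`: the word is
`s ++ Wd.sg c ++ Wd.sub b c u ++ Y ++ Wd.sg (e with b := c) ++ Wd.sub b (e with b := c) g₀ ++ apw h' (Wd.sub b c τ')`.
If `τ'` contains `b`: (Q) of `h'` with `u' = u ++ Y ++ Wd.sg e ++ Wd.sub b e g₀` (`e ≤ b`; if `e = b` then
`Wd.sub b b g₀ = g₀`; `Wd.sub b c (Wd.sub b e g₀) = Wd.sub b (e with b := c) g₀`). Otherwise `e = b` and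
`τ'` is over `b`: it says `Ext b D s ((u ++ Y ++ Wd.sg b) ++ g₀ ++ apw h' τ')`, and
`(u ++ Y ++ Wd.sg b).len ≤ Λ₁`. -/
def G_CLS : Prop := ∀ (M : Type) [World M] (b p : M) (D : Wd M → Prop), IP M D → PSd b p D →
  (∀ s, Over b s → D s → ¬ PS (b + 1) (Ext b D s)) → ∀ m, Cl b p D m → Cl b p D (m + 1)

/-- **L4** (Lemma 4), from `G_CL0`, `G_CLS`, `G_CS1`, `G_BND`.

PROOF. `PS b D` gives `p` with `PSd b p D`. Suppose the conclusion fails. By `ind` `Cl b p D m` holds
for all `m` (internality by `inferInstance` after `unfold Cl`). Let `r` bound the codes of the words over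
`b` of length `≤ p` (`G_BND`), `N` from `G_CS1` for `b, r`, and `h` from `Cl b p D N` for `Λ = p`. Let
`c β = cd (pick M (fun t => Over b t ∧ t.len ≤ p ∧ D (t ++ apw h β)))`; by (I) with `g = nil` the picked
`t` has these properties for all `β` over `b` with `β.len ≤ N`, and `c β < r`. `G_CS1` gives `σ, τ`, with
the same `t` (codes are injective) for `σ` and all `σ ++ Wd.sg a ++ Wd.sub b a τ`. This contradicts (P)
with `α = t`. -/
def G_L4 : Prop := ∀ (M : Type) [World M] (b : M) (D : Wd M → Prop), IP M D → PS b D →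
  ∃ s : Wd M, Over b s ∧ D s ∧ PS (b + 1) (Ext b D s)

end Pool.Agent.Helper6.CS
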