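import Pool.Agent.Helper6.CS.Words

/-!
# Basic lemmas on words
-/

namespace Pool.Agent.Helper6.CS

set_option synthInstance.maxSize 1000000000

variable {M : Type} [World M]

@[simp] theorem Wd.len_nil : (Wd.nil M).len = 0 := by unfold Wd.nil; rw [Wd.len_of]

@[simp] theorem Wd.len_sg (a : M) : (Wd.sg a).len = 1 := by unfold Wd.sg; rw [Wd.len_of]

@[simp] theorem Wd.get_sg_zero (a : M) : (Wd.sg a).get 0 = a := by
  unfold Wd.sg; rw [Wd.get_of_lt _ _ zero_lt_one]

@[simp] theorem Wd.len_append (s t : Wd M) : (s ++ t).len = s.len + t.len := by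
  rw [Wd.app_def, Wd.len_of]

theorem Wd.get_append_left (s t : Wd M) {i : M} (h : i < s.len) : (s ++ t).get i = s.get i := by
  rw [Wd.app_def, Wd.get_of, if_pos (lt_of_lt_of_le h (le_add_of_nonneg_right (World.zero_le' _))),
    if_pos h]

theorem Wd.get_append_right (s t : Wd M) (i : M) : (s ++ t).get (s.len + i) = t.get i := by
  rw [Wd.app_def, Wd.get_of]
  rcases lt_or_ge i t.len with h | h
  · rw [if_pos (add_lt_add_right h _), if_neg (not_lt.2 (le_add_of_nonneg_right (World.zero_le' _))),
      add_tsub_cancel_left]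
  · rw [if_neg (not_lt.2 (add_le_add_right h _)), t.supp i h]

theorem Wd.lt_cases {i a b : M} (h : i < a + b) : i < a ∨ ∃ j, j < b ∧ i = a + j := by
  rcases lt_or_ge i a with h1 | h1
  · exact Or.inl h1
  · obtain ⟨j, rfl⟩ := World.exists_add a i h1
    exact Or.inr ⟨j, lt_of_add_lt_add_left h, rfl⟩

theorem Wd.append_assoc (s t u : Wd M) : (s ++ t) ++ u = s ++ (t ++ u) := by
  refine Wd.ext' (by simp [add_assoc]) fun i hi => ?_
  simp only [Wd.len_append] at hi
  rcases Wd.lt_cases hi with h | ⟨j, hj, rfl⟩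
  · rw [Wd.get_append_left _ _ (by simpa using h)]
    rcases Wd.lt_cases h with h' | ⟨j, hj, rfl⟩
    · rw [Wd.get_append_left _ _ h', Wd.get_append_left _ _ h']
    · rw [Wd.get_append_right, Wd.get_append_right, Wd.get_append_left _ _ hj]
  · have h1 : s.len + t.len + j = (s ++ t).len + j := by simp
    rw [h1, Wd.get_append_right, Wd.len_append, add_assoc, Wd.get_append_right,
      Wd.get_append_right]

@[simp] theorem Wd.nil_append (s : Wd M) : Wd.nil M ++ s = s := by
  refine Wd.ext' (by simp) fun i _ => ?_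
  have : i = (Wd.nil M).len + i := by simp
  rw [this, Wd.get_append_right, ← this]

@[simp] theorem Wd.append_nil (s : Wd M) : s ++ Wd.nil M = s := by
  refine Wd.ext' (by simp) fun i hi => ?_
  simp only [Wd.len_append, Wd.len_nil, add_zero] at hi
  rw [Wd.get_append_left _ _ hi]

theorem Wd.eq_nil_of_len {s : Wd M} (h : s.len = 0) : s = Wd.nil M :=
  Wd.ext' (by simp [h]) fun i hi => absurd hi (by rw [h]; exact not_lt.2 (World.zero_le' i))

theorem Wd.append_cancel_left {s t u : Wd M} (h : s ++ t = s ++ u) : t = u := by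
  have hl : t.len = u.len := by
    have := congrArg Wd.len h
    simp only [Wd.len_append] at this
    exact add_left_cancel this
  refine Wd.ext' hl fun i _ => ?_
  rw [← Wd.get_append_right s t i, h, Wd.get_append_right]

/-- A nonempty word is a letter followed by a word. -/
theorem Wd.exists_cons {s : Wd M} (h : s.len ≠ 0) :
    ∃ t : Wd M, s = Wd.sg (s.get 0) ++ t ∧ s.len = t.len + 1 := by
  have h1 : 1 ≤ s.len := World.one_le_of_pos (lt_of_le_of_ne (World.zero_le' _) (Ne.symm h))
  obtain ⟨l, hl⟩ := World.exists_add _ _ h1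
  refine ⟨Wd.of l fun i => s.get (1 + i), ?_, by rw [Wd.len_of, hl, add_comm]⟩
  refine Wd.ext' (by simp [Wd.len_of, hl]) fun i hi => ?_
  rw [hl] at hi
  rcases Wd.lt_cases hi with h2 | ⟨j, hj, rfl⟩
  · have h3 : i = 0 := by
      have h4 : i < 0 + 1 := by rwa [zero_add]
      rw [World.lt_succ] at h4
      exact le_antisymm h4 (World.zero_le' _)
    subst h3
    rw [Wd.get_append_left _ _ (by simp), Wd.get_sg_zero]
  · have h3 : (1 : M) + j = (Wd.sg (s.get 0)).len + j := by simp
    conv_rhs => rw [h3]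
    rw [Wd.get_append_right, Wd.get_of_lt _ _ hj]

/-- A nonempty word is a word followed by a letter. -/
theorem Wd.exists_snoc {s : Wd M} {l : M} (h : s.len = l + 1) :
    ∃ t : Wd M, s = t ++ Wd.sg (s.get l) ∧ t.len = l := by
  refine ⟨Wd.of l s.get, ?_, Wd.len_of _ _⟩
  refine Wd.ext' (by simp [Wd.len_of, h]) fun i hi => ?_
  rw [h] at hi
  rcases Wd.lt_cases hi with h2 | ⟨j, hj, rfl⟩
  · rw [Wd.get_append_left _ _ (by rwa [Wd.len_of]), Wd.get_of_lt _ _ h2]
  · have h3 : j = 0 := by
      have h4 : j < 0 + 1 := by rwa [zero_add]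
      rw [World.lt_succ] at h4
      exact le_antisymm h4 (World.zero_le' _)
    subst h3
    have h5 : l + 0 = (Wd.of l s.get).len + 0 := by rw [Wd.len_of]
    conv_rhs => rw [h5]
    rw [Wd.get_append_right, Wd.get_sg_zero, add_zero]

/-! ### Over -/

theorem Over.mono {a b : M} (h : a ≤ b) {w : Wd M} (hw : Over a w) : Over b w :=
  fun i hi => lt_of_lt_of_le (hw i hi) h

@[simp] theorem Over.nil (b : M) : Over b (Wd.nil M) := by
  intro i hi
  rw [Wd.len_nil] at hi
  exact absurd hi (not_lt.2 (World.zero_le' i))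

theorem Over.sg_iff {a b : M} : Over b (Wd.sg a) ↔ a < b := by
  constructor
  · intro h
    have := h 0 (by simp)
    simpa using this
  · intro h i hi
    rw [Wd.len_sg] at hi
    have h4 : i < 0 + 1 := by rwa [zero_add]
    rw [World.lt_succ] at h4
    have := le_antisymm h4 (World.zero_le' _)
    subst this
    simpa using h

theorem Over.append_iff {b : M} {s t : Wd M} : Over b (s ++ t) ↔ Over b s ∧ Over b t := by
  constructor
  · intro h
    refine ⟨fun i hi => ?_, fun i hi => ?_⟩
    · rw [← Wd.get_append_left s t hi]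
      exact h i (by simp only [Wd.len_append]; exact lt_of_lt_of_le hi (le_add_of_nonneg_right (World.zero_le' _)))
    · rw [← Wd.get_append_right s t i]
      exact h _ (by simp only [Wd.len_append]; exact add_lt_add_right hi _)
  · rintro ⟨h1, h2⟩ i hi
    simp only [Wd.len_append] at hi
    rcases Wd.lt_cases hi with h | ⟨j, hj, rfl⟩
    · rw [Wd.get_append_left _ _ h]; exact h1 i h
    · rw [Wd.get_append_right]; exact h2 j hj

/-! ### Replacing a letter -/

@[simp] theorem Wd.len_sub (x c : M) (w : Wd M) : (Wd.sub x c w).len = w.len := by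
  unfold Wd.sub; rw [Wd.len_of]

theorem Wd.get_sub (x c : M) (w : Wd M) {i : M} (h : i < w.len) :
    (Wd.sub x c w).get i = if w.get i = x then c else w.get i := by
  unfold Wd.sub
  rw [Wd.get_of_lt _ _ h]

theorem Wd.sub_append (x c : M) (s t : Wd M) :
    Wd.sub x c (s ++ t) = Wd.sub x c s ++ Wd.sub x c t := by
  refine Wd.ext' (by simp) fun i hi => ?_
  simp only [Wd.len_sub, Wd.len_append] at hi
  rw [Wd.get_sub _ _ _ (by simpa using hi)]
  rcases Wd.lt_cases hi with h | ⟨j, hj, rfl⟩
  · rw [Wd.get_append_left _ _ h, Wd.get_append_left _ _ (by simpa using h), Wd.get_sub _ _ _ h]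
  · rw [Wd.get_append_right]
    have h1 : s.len + j = (Wd.sub x c s).len + j := by simp
    rw [h1, Wd.get_append_right, Wd.get_sub _ _ _ hj]

@[simp] theorem Wd.sub_nil (x c : M) : Wd.sub x c (Wd.nil M) = Wd.nil M :=
  Wd.eq_nil_of_len (by simp)

theorem Wd.sub_sg (x c a : M) : Wd.sub x c (Wd.sg a) = Wd.sg (if a = x then c else a) := by
  refine Wd.ext' (by simp) fun i hi => ?_
  simp only [Wd.len_sub, Wd.len_sg] at hi
  have h4 : i < 0 + 1 := by rwa [zero_add]
  rw [World.lt_succ] at h4
  have := le_antisymm h4 (World.zero_le' _)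
  subst this
  rw [Wd.get_sub _ _ _ (by simp), Wd.get_sg_zero, Wd.get_sg_zero]

/-- A word over `x` does not contain the letter `x`. -/
theorem Wd.sub_of_over {x c : M} {w : Wd M} (h : Over x w) : Wd.sub x c w = w := by
  refine Wd.ext' (by simp) fun i hi => ?_
  simp only [Wd.len_sub] at hi
  rw [Wd.get_sub _ _ _ hi, if_neg (h i hi).ne]

theorem Over.sub {b c : M} (hc : c < b) {w : Wd M} (hw : Over (b + 1) w) :
    Over b (Wd.sub b c w) := by
  intro i hi
  simp only [Wd.len_sub] at hi
  rw [Wd.get_sub _ _ _ hi]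
  split_ifs with h
  · exact hc
  · have := hw i hi
    rw [World.lt_succ] at this
    exact lt_of_le_of_ne this h

theorem Over.sub' {b x c : M} (hc : c < b) {w : Wd M} (hw : Over b w) :
    Over b (Wd.sub x c w) := by
  intro i hi
  simp only [Wd.len_sub] at hi
  rw [Wd.get_sub _ _ _ hi]
  split_ifs with h
  · exact hc
  · exact hw i hi

end Pool.Agent.Helper6.CS
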