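import Pool.Agent.Helper6.CS.World

/-!
# The internal calculus: coded types, internal predicates, internal functions
-/

namespace Pool.Agent.Helper6.CS

variable {M : Type} [World M]

/-- The term for the pairing function. -/
def Tm.pr (s t : Tm) : Tm := .add (.mul (.add s t) (.add s t)) s

@[simp] theorem Tm.val_pr (e : ℕ → M) (s t : Tm) :
    (Tm.pr s t).val e = CS.pr (s.val e) (t.val e) := rfl

@[simp] theorem Tm.val_var (e : ℕ → M) (i : ℕ) : (Tm.var i).val e = e i := rfl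
@[simp] theorem Tm.val_zero (e : ℕ → M) : Tm.zero.val e = 0 := rfl
@[simp] theorem Tm.val_one (e : ℕ → M) : Tm.one.val e = 1 := rfl
@[simp] theorem Tm.val_add (e : ℕ → M) (s t : Tm) : (Tm.add s t).val e = s.val e + t.val e := rfl
@[simp] theorem Tm.val_mul (e : ℕ → M) (s t : Tm) : (Tm.mul s t).val e = s.val e * t.val e := rfl

theorem mkset {S : Set M} {P : (ℕ → M) → Prop} (hP : Ar World.X P) (e : ℕ → M)
    (h : ∀ a, a ∈ S ↔ P (Function.update e 0 a)) : S ∈ World.X := by
  have := World.comp P hP e 0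
  have h2 : S = {a | P (Function.update e 0 a)} := by
    ext a; exact h a
  rwa [h2]

theorem univ_mem : (Set.univ : Set M) ∈ World.X :=
  mkset (Ar.eq (.var 0) (.var 0)) (fun _ => 0) (by simp)

theorem compl_mem {S : Set M} (hS : S ∈ World.X) : Sᶜ ∈ World.X :=
  mkset (Ar.mem S hS (.var 0)).neg (fun _ => 0) (by simp)

theorem inter_mem {S T : Set M} (hS : S ∈ World.X) (hT : T ∈ World.X) : S ∩ T ∈ World.X :=
  mkset ((Ar.mem S hS (.var 0)).and (Ar.mem T hT (.var 0))) (fun _ => 0) (by simp)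

/-- A type coded by elements of `M`. -/
class Cod (M : Type) [World M] (α : Type) where
  cd : α → M
  inj : Function.Injective cd
  rng : {m | ∃ a, cd a = m} ∈ World.X (M := M)

instance : Cod M M where
  cd := id
  inj := Function.injective_id
  rng := by
    have : {m : M | ∃ a, id a = m} = Set.univ := by ext; simp
    rw [this]; exact univ_mem

variable {α β γ δ : Type} [Cod M α] [Cod M β] [Cod M γ] [Cod M δ]

theorem Cod.cd_eq {a b : α} : (Cod.cd a : M) = Cod.cd b ↔ a = b :=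
  ⟨fun h => Cod.inj h, fun h => by rw [h]⟩

instance : Cod M (α × β) where
  cd p := pr (Cod.cd p.1) (Cod.cd p.2)
  inj := by
    rintro ⟨a, b⟩ ⟨a', b'⟩ h
    obtain ⟨h1, h2⟩ := pr_inj h
    rw [Cod.cd_eq] at h1 h2
    exact Prod.ext h1 h2
  rng := by
    refine mkset (Ar.ex 1 (Ar.ex 2 ((Ar.eq (.var 0) (.pr (.var 1) (.var 2))).and
      ((Ar.mem _ (Cod.rng (M := M) (α := α)) (.var 1)).and
        (Ar.mem _ (Cod.rng (M := M) (α := β)) (.var 2)))))) (fun _ => 0) ?_
    intro a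
    simp only [Set.mem_ofPred_eq, Function.update, Tm.val_var, Tm.val_pr]
    constructor
    · rintro ⟨⟨x, y⟩, rfl⟩
      exact ⟨Cod.cd x, Cod.cd y, by simp, ⟨x, by simp⟩, ⟨y, by simp⟩⟩
    · rintro ⟨m, n, h, ⟨x, hx⟩, ⟨y, hy⟩⟩
      refine ⟨⟨x, y⟩, ?_⟩
      simp at h hx hy
      rw [h, hx, hy]

theorem cd_pair (a : α) (b : β) : (Cod.cd (a, b) : M) = pr (Cod.cd a) (Cod.cd b) := rfl

theorem cd_M {M : Type} [w : World M] (a : M) : @Cod.cd M w M instCod a = a := rfl

/-- The predicate `P` is internal. -/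
class IP (M : Type) [World M] {α : Type} [Cod M α] (P : α → Prop) : Prop where
  mem : {m | ∃ a, Cod.cd a = m ∧ P a} ∈ World.X (M := M)

/-- The code set. -/
def cset (M : Type) [World M] {α : Type} [Cod M α] (P : α → Prop) : Set M :=
  {m | ∃ a, Cod.cd a = m ∧ P a}

theorem mem_cset {P : α → Prop} {a : α} : (Cod.cd a : M) ∈ cset M P ↔ P a := by
  constructor
  · rintro ⟨b, hb, h⟩
    rw [Cod.cd_eq] at hb
    rwa [← hb]
  · intro h
    exact ⟨a, rfl, h⟩

theorem mem_cset_pair {P : α × β → Prop} {m n : M} :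
    pr m n ∈ cset M P ↔ ∃ a b, Cod.cd a = m ∧ Cod.cd b = n ∧ P (a, b) := by
  constructor
  · rintro ⟨⟨a, b⟩, h, hp⟩
    obtain ⟨h1, h2⟩ := pr_inj h
    exact ⟨a, b, h1, h2, hp⟩
  · rintro ⟨a, b, rfl, rfl, h⟩
    exact ⟨(a, b), rfl, h⟩

/-- The function `f` is internal. -/
class IFn (M : Type) [World M] {α β : Type} [Cod M α] [Cod M β] (f : α → β) : Prop where
  g : IP M fun p : α × β => f p.1 = p.2

theorem IP.congr {P Q : α → Prop} (hP : IP M P) (h : ∀ a, P a ↔ Q a) : IP M Q := by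
  have : P = Q := funext fun a => propext (h a)
  rwa [← this]

instance IP.and {P Q : α → Prop} [hP : IP M P] [hQ : IP M Q] : IP M fun a => P a ∧ Q a where
  mem := by
    refine mkset ((Ar.mem _ hP.mem (.var 0)).and (Ar.mem _ hQ.mem (.var 0))) (fun _ => 0) ?_
    intro m
    simp only [Set.mem_ofPred_eq, Function.update, Tm.val_var]
    constructor
    · rintro ⟨a, rfl, h1, h2⟩
      exact ⟨⟨a, by simp, h1⟩, ⟨a, by simp, h2⟩⟩
    · rintro ⟨⟨a, ha, h1⟩, ⟨b, hb, h2⟩⟩
      simp at ha hb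
      refine ⟨a, ha, h1, ?_⟩
      rw [← ha, Cod.cd_eq] at hb
      rwa [← hb]

instance IP.not {P : α → Prop} [hP : IP M P] : IP M fun a => ¬ P a where
  mem := by
    refine mkset ((Ar.mem _ hP.mem (.var 0)).neg.and (Ar.mem _ (Cod.rng (M := M) (α := α)) (.var 0)))
      (fun _ => 0) ?_
    intro m
    simp only [Set.mem_ofPred_eq, Function.update, Tm.val_var]
    constructor
    · rintro ⟨a, rfl, h1⟩
      refine ⟨?_, ⟨a, by simp⟩⟩
      rintro ⟨b, hb, h2⟩
      simp at hb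
      rw [Cod.cd_eq] at hb
      exact h1 (hb ▸ h2)
    · rintro ⟨h1, ⟨a, ha⟩⟩
      simp at ha
      exact ⟨a, ha, fun h => h1 ⟨a, by simp [ha], h⟩⟩

instance IP.or {P Q : α → Prop} [hP : IP M P] [hQ : IP M Q] : IP M fun a => P a ∨ Q a :=
  IP.congr (P := fun a => ¬ (¬ P a ∧ ¬ Q a)) inferInstance fun a => by tauto

instance IP.imp {P Q : α → Prop} [hP : IP M P] [hQ : IP M Q] : IP M fun a => P a → Q a :=
  IP.congr (P := fun a => ¬ (P a ∧ ¬ Q a)) inferInstance fun a => by tauto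

instance IP.iff {P Q : α → Prop} [hP : IP M P] [hQ : IP M Q] : IP M fun a => P a ↔ Q a :=
  IP.congr (P := fun a => (P a → Q a) ∧ (Q a → P a)) inferInstance fun a => by tauto

instance IP.true : IP M fun _ : α => True where
  mem := by
    have : {m : M | ∃ a : α, Cod.cd a = m ∧ True} = {m | ∃ a : α, Cod.cd a = m} := by simp
    rw [this]; exact Cod.rng

instance IP.const (p : Prop) : IP M fun _ : α => p := by
  by_cases h : p
  · exact IP.congr (P := fun _ : α => True) inferInstance fun a => by simp [h]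
  · exact IP.congr (P := fun _ : α => ¬ True) inferInstance fun a => by simp [h]

theorem IP.exU {P : α × β → Prop} (hP : IP M P) : IP M fun a => ∃ b, P (a, b) where
  mem := by
    refine mkset (Ar.ex 1 (Ar.mem _ hP.mem (.pr (.var 0) (.var 1)))) (fun _ => 0) ?_
    intro m
    simp only [Function.update, Tm.val_var, Tm.val_pr]
    constructor
    · rintro ⟨a, rfl, b, h⟩
      exact ⟨Cod.cd b, (a, b), by simp [cd_pair], h⟩
    · rintro ⟨n, ⟨a, b⟩, hab, h⟩
      simp [cd_pair] at hab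
      obtain ⟨h1, h2⟩ := pr_inj hab
      exact ⟨a, h1, b, h⟩

instance IP.ex {P : α → β → Prop} [hP : IP M fun p : α × β => P p.1 p.2] :
    IP M fun a => ∃ b, P a b := IP.exU hP

instance IP.all {P : α → β → Prop} [hP : IP M fun p : α × β => P p.1 p.2] :
    IP M fun a => ∀ b, P a b :=
  IP.congr (P := fun a => ¬ ∃ b, ¬ P a b) inferInstance fun a => by push Not; exact Iff.rfl

/-! ### Internal functions -/

theorem IFn.mem_graph {f : α → β} {m n : M} :
    pr m n ∈ cset M (fun p : α × β => f p.1 = p.2) ↔ ∃ a, Cod.cd a = m ∧ Cod.cd (f a) = n := by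
  rw [mem_cset_pair]
  constructor
  · rintro ⟨a, b, rfl, rfl, h⟩
    exact ⟨a, rfl, congrArg _ h⟩
  · rintro ⟨a, rfl, rfl⟩
    exact ⟨a, f a, rfl, rfl, rfl⟩

/-- Substitution of an internal function into an internal predicate. -/
theorem IP.comp {P : β → Prop} (hP : IP M P) {f : α → β} (hf : IFn M f) :
    IP M fun a => P (f a) where
  mem := by
    refine mkset (Ar.ex 1 ((Ar.mem _ hf.g.mem (.pr (.var 0) (.var 1))).and
      (Ar.mem _ hP.mem (.var 1)))) (fun _ => 0) ?_
    intro m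
    change _ ↔ ∃ n, (pr _ _ ∈ cset M (fun p : α × β => f p.1 = p.2)) ∧ _
    simp only [IFn.mem_graph]
    simp only [Set.mem_ofPred_eq, Function.update, Tm.val_var]
    constructor
    · rintro ⟨a, rfl, h⟩
      exact ⟨Cod.cd (f a), ⟨a, by simp, by simp⟩, ⟨f a, by simp, h⟩⟩
    · rintro ⟨n, ⟨a, ha, hb⟩, ⟨b, hb', h⟩⟩
      simp at ha hb hb'
      rw [← hb, Cod.cd_eq] at hb'
      exact ⟨a, ha, hb' ▸ h⟩

/-- A function with an internal graph relation. -/
theorem IFn.of_graph {f : α → β} {R : α × β → Prop} (hR : IP M R)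
    (h : ∀ a b, R (a, b) ↔ f a = b) : IFn M f :=
  ⟨IP.congr hR fun p => h p.1 p.2⟩

instance IFn.id : IFn M fun a : α => a where
  g := ⟨by
    refine mkset (Ar.ex 1 ((Ar.eq (.var 0) (.pr (.var 1) (.var 1))).and
      (Ar.mem _ (Cod.rng (M := M) (α := α)) (.var 1)))) (fun _ => 0) ?_
    intro m
    simp only [Set.mem_ofPred_eq, Function.update, Tm.val_var, Tm.val_pr]
    constructor
    · rintro ⟨⟨a, b⟩, rfl, h⟩
      simp at h
      subst h
      exact ⟨Cod.cd a, by simp [cd_pair], ⟨a, by simp⟩⟩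
    · rintro ⟨n, h, ⟨a, ha⟩⟩
      simp at h ha
      exact ⟨(a, a), by rw [cd_pair, ha, h], rfl⟩⟩

instance (priority := 900) IFn.const (b : β) : IFn M fun _ : α => b where
  g := ⟨by
    refine mkset (Ar.ex 1 ((Ar.eq (.var 0) (.pr (.var 1) (.var 2))).and
      (Ar.mem _ (Cod.rng (M := M) (α := α)) (.var 1)))) (fun _ => Cod.cd b) ?_
    intro m
    simp only [Set.mem_ofPred_eq, Function.update, Tm.val_var, Tm.val_pr]
    constructor
    · rintro ⟨⟨a, b'⟩, rfl, h⟩
      simp at h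
      subst h
      exact ⟨Cod.cd a, by simp [cd_pair], ⟨a, by simp⟩⟩
    · rintro ⟨n, h, ⟨a, ha⟩⟩
      simp at h ha
      exact ⟨(a, b), by rw [cd_pair, ha, h], rfl⟩⟩

theorem IFn.fst' : IFn M fun p : α × β => p.1 where
  g := ⟨by
    refine mkset (Ar.ex 1 (Ar.ex 2 ((Ar.eq (.var 0) (.pr (.pr (.var 1) (.var 2)) (.var 1))).and
      ((Ar.mem _ (Cod.rng (M := M) (α := α)) (.var 1)).and
      (Ar.mem _ (Cod.rng (M := M) (α := β)) (.var 2)))))) (fun _ => 0) ?_
    intro m
    simp only [Set.mem_ofPred_eq, Function.update, Tm.val_var, Tm.val_pr]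
    constructor
    · rintro ⟨⟨⟨a, b⟩, a'⟩, rfl, h⟩
      simp at h
      subst h
      exact ⟨Cod.cd a, Cod.cd b, by simp [cd_pair], ⟨a, by simp⟩, ⟨b, by simp⟩⟩
    · rintro ⟨n, k, h, ⟨a, ha⟩, ⟨b, hb⟩⟩
      simp at h ha hb
      exact ⟨((a, b), a), by rw [cd_pair, cd_pair, ha, hb, h], rfl⟩⟩

theorem IFn.snd' : IFn M fun p : α × β => p.2 where
  g := ⟨by
    refine mkset (Ar.ex 1 (Ar.ex 2 ((Ar.eq (.var 0) (.pr (.pr (.var 1) (.var 2)) (.var 2))).and
      ((Ar.mem _ (Cod.rng (M := M) (α := α)) (.var 1)).and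
      (Ar.mem _ (Cod.rng (M := M) (α := β)) (.var 2)))))) (fun _ => 0) ?_
    intro m
    simp only [Set.mem_ofPred_eq, Function.update, Tm.val_var, Tm.val_pr]
    constructor
    · rintro ⟨⟨⟨a, b⟩, a'⟩, rfl, h⟩
      simp at h
      subst h
      exact ⟨Cod.cd a, Cod.cd b, by simp [cd_pair], ⟨a, by simp⟩, ⟨b, by simp⟩⟩
    · rintro ⟨n, k, h, ⟨a, ha⟩, ⟨b, hb⟩⟩
      simp at h ha hb
      exact ⟨((a, b), b), by rw [cd_pair, cd_pair, ha, hb, h], rfl⟩⟩

theorem IFn.pair' {f : α → β} {g : α → γ} (hf : IFn M f) (hg : IFn M g) :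
    IFn M fun a => (f a, g a) where
  g := ⟨by
    refine mkset (Ar.ex 1 (Ar.ex 2 (Ar.ex 3 ((Ar.eq (.var 0) (.pr (.var 1) (.pr (.var 2) (.var 3)))).and
      ((Ar.mem _ hf.g.mem (.pr (.var 1) (.var 2))).and
      (Ar.mem _ hg.g.mem (.pr (.var 1) (.var 3)))))))) (fun _ => 0) ?_
    intro m
    change _ ↔ ∃ _ _ _, _ ∧ (pr _ _ ∈ cset M (fun p : α × β => f p.1 = p.2)) ∧
      (pr _ _ ∈ cset M (fun p : α × γ => g p.1 = p.2))
    simp only [IFn.mem_graph]
    simp only [Set.mem_ofPred_eq, Function.update, Tm.val_var, Tm.val_pr]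
    constructor
    · rintro ⟨⟨a, b, c⟩, rfl, h⟩
      simp at h
      obtain ⟨rfl, rfl⟩ := h
      exact ⟨Cod.cd a, Cod.cd (f a), Cod.cd (g a), by simp [cd_pair], ⟨a, by simp⟩, ⟨a, by simp⟩⟩
    · rintro ⟨n, k, l, h, ⟨a, ha, hb⟩, ⟨a', ha', hb'⟩⟩
      simp at h ha hb ha' hb'
      have : a = a' := by rw [← Cod.cd_eq (M := M), ha, ha']
      subst this
      exact ⟨(a, f a, g a), by rw [cd_pair, cd_pair, ha, hb, hb', h], rfl⟩⟩

theorem IFn.comp {g : β → γ} {f : α → β} (hg : IFn M g) (hf : IFn M f) :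
    IFn M fun a => g (f a) := by
  refine ⟨?_⟩
  have h1 : IP M fun q : β × γ => g q.1 = q.2 := hg.g
  have h2 : IFn M fun p : α × γ => (f p.1, p.2) := by
    refine IFn.pair' ?_ IFn.snd'
    -- composition with the first projection, done by hand
    refine ⟨⟨?_⟩⟩
    refine mkset (Ar.ex 1 (Ar.ex 2 (Ar.ex 3 ((Ar.eq (.var 0)
      (.pr (.pr (.var 1) (.var 2)) (.var 3))).and
      ((Ar.mem _ hf.g.mem (.pr (.var 1) (.var 3))).and
      (Ar.mem _ (Cod.rng (M := M) (α := γ)) (.var 2))))))) (fun _ => 0) ?_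
    intro m
    change _ ↔ ∃ _ _ _, _ ∧ (pr _ _ ∈ cset M (fun p : α × β => f p.1 = p.2)) ∧ _
    simp only [IFn.mem_graph]
    simp only [Set.mem_ofPred_eq, Function.update, Tm.val_var, Tm.val_pr]
    constructor
    · rintro ⟨⟨⟨a, c⟩, b⟩, rfl, h⟩
      simp at h
      subst h
      exact ⟨Cod.cd a, Cod.cd c, Cod.cd (f a), by simp [cd_pair], ⟨a, by simp⟩, ⟨c, by simp⟩⟩
    · rintro ⟨n, k, l, h, ⟨a, ha, hb⟩, ⟨c, hc⟩⟩
      simp at h ha hb hc
      exact ⟨((a, c), f a), by rw [cd_pair, cd_pair, ha, hb, hc, h], rfl⟩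
  exact IP.comp h1 h2

instance IFn.fst {f : α → β × γ} [hf : IFn M f] : IFn M fun a => (f a).1 := IFn.comp IFn.fst' hf
instance IFn.snd {f : α → β × γ} [hf : IFn M f] : IFn M fun a => (f a).2 := IFn.comp IFn.snd' hf
instance IFn.pair {f : α → β} {g : α → γ} [hf : IFn M f] [hg : IFn M g] :
    IFn M fun a => (f a, g a) := IFn.pair' hf hg

theorem IP.comp2 {P : β × γ → Prop} (hP : IP M P) {f : α → β} {g : α → γ} (hf : IFn M f)
    (hg : IFn M g) : IP M fun a => P (f a, g a) := IP.comp hP (IFn.pair' hf hg)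

theorem IFn.comp2 {h : β × γ → δ} (hh : IFn M h) {f : α → β} {g : α → γ} (hf : IFn M f)
    (hg : IFn M g) : IFn M fun a => h (f a, g a) := IFn.comp hh (IFn.pair' hf hg)

instance IP.eq {f g : α → β} [hf : IFn M f] [hg : IFn M g] : IP M fun a => f a = g a := by
  have h1 : IP M fun p : β × β => p.1 = p.2 := (IFn.id (M := M) (α := β)).g
  exact IP.comp2 h1 hf hg

instance IP.ne {f g : α → β} [hf : IFn M f] [hg : IFn M g] : IP M fun a => f a ≠ g a :=
  IP.congr (P := fun a => ¬ f a = g a) inferInstance fun a => Iff.rfl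

/-! ### Arithmetic -/

theorem IP.lt' : IP M fun p : M × M => p.1 < p.2 where
  mem := by
    refine mkset (Ar.ex 1 (Ar.ex 2 ((Ar.eq (.var 0) (.pr (.var 1) (.var 2))).and
      (Ar.lt (.var 1) (.var 2))))) (fun _ => 0) ?_
    intro m
    simp only [Set.mem_ofPred_eq, Function.update, Tm.val_var, Tm.val_pr]
    constructor
    · rintro ⟨⟨a, b⟩, rfl, h⟩
      exact ⟨a, b, by simp [cd_pair, cd_M], by simpa using h⟩
    · rintro ⟨a, b, h, hab⟩
      simp at h hab
      exact ⟨(a, b), by rw [cd_pair, cd_M, cd_M, h], hab⟩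

theorem IFn.add' : IFn M fun p : M × M => p.1 + p.2 where
  g := ⟨by
    refine mkset (Ar.ex 1 (Ar.ex 2 (Ar.eq (.var 0)
      (.pr (.pr (.var 1) (.var 2)) (.add (.var 1) (.var 2)))))) (fun _ => 0) ?_
    intro m
    simp only [Set.mem_ofPred_eq, Function.update, Tm.val_var, Tm.val_pr, Tm.val_add]
    constructor
    · rintro ⟨⟨⟨a, b⟩, c⟩, rfl, h⟩
      simp at h
      subst h
      exact ⟨a, b, by simp [cd_pair, cd_M]⟩
    · rintro ⟨a, b, h⟩
      simp at h
      exact ⟨((a, b), a + b), by rw [cd_pair, cd_pair, cd_M, cd_M, cd_M, h], rfl⟩⟩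

theorem IFn.mul' : IFn M fun p : M × M => p.1 * p.2 where
  g := ⟨by
    refine mkset (Ar.ex 1 (Ar.ex 2 (Ar.eq (.var 0)
      (.pr (.pr (.var 1) (.var 2)) (.mul (.var 1) (.var 2)))))) (fun _ => 0) ?_
    intro m
    simp only [Set.mem_ofPred_eq, Function.update, Tm.val_var, Tm.val_pr, Tm.val_mul]
    constructor
    · rintro ⟨⟨⟨a, b⟩, c⟩, rfl, h⟩
      simp at h
      subst h
      exact ⟨a, b, by simp [cd_pair, cd_M]⟩
    · rintro ⟨a, b, h⟩
      simp at h
      exact ⟨((a, b), a * b), by rw [cd_pair, cd_pair, cd_M, cd_M, cd_M, h], rfl⟩⟩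

instance IP.lt {f g : α → M} [hf : IFn M f] [hg : IFn M g] : IP M fun a => f a < g a :=
  IP.comp2 IP.lt' hf hg

instance IP.le {f g : α → M} [hf : IFn M f] [hg : IFn M g] : IP M fun a => f a ≤ g a :=
  IP.congr (P := fun a => ¬ g a < f a) inferInstance fun a => not_lt

instance IFn.add {f g : α → M} [hf : IFn M f] [hg : IFn M g] : IFn M fun a => f a + g a :=
  IFn.comp2 IFn.add' hf hg

instance IFn.mul {f g : α → M} [hf : IFn M f] [hg : IFn M g] : IFn M fun a => f a * g a :=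
  IFn.comp2 IFn.mul' hf hg

instance IFn.pr {f g : α → M} [hf : IFn M f] [hg : IFn M g] : IFn M fun a => CS.pr (f a) (g a) := by
  unfold CS.pr
  infer_instance

instance IFn.cd {f : α → β} [hf : IFn M f] : IFn M fun a => (Cod.cd (f a) : M) := by
  refine IFn.comp ?_ hf
  refine ⟨⟨?_⟩⟩
  refine mkset (Ar.ex 1 ((Ar.eq (.var 0) (.pr (.var 1) (.var 1))).and
      (Ar.mem _ (Cod.rng (M := M) (α := β)) (.var 1)))) (fun _ => 0) ?_
  intro m
  simp only [Set.mem_ofPred_eq, Function.update, Tm.val_var, Tm.val_pr]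
  constructor
  · rintro ⟨⟨a, b⟩, rfl, h⟩
    simp at h
    subst h
    exact ⟨Cod.cd a, by simp [cd_pair, cd_M], ⟨a, by simp⟩⟩
  · rintro ⟨n, h, ⟨a, ha⟩⟩
    simp at h ha
    exact ⟨(a, Cod.cd a), by rw [cd_pair, cd_M, ha, h], rfl⟩

theorem IFn.sub' : IFn M fun p : M × M => p.1 - p.2 where
  g := by
    refine IP.congr (P := fun p : (M × M) × M => (p.1.2 ≤ p.1.1 ∧ p.1.1 = p.1.2 + p.2) ∨
      (¬ p.1.2 ≤ p.1.1 ∧ p.2 = 0)) inferInstance fun p => (World.sub_eq_iff _ _ _).symm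

instance IFn.sub {f g : α → M} [hf : IFn M f] [hg : IFn M g] : IFn M fun a => f a - g a :=
  IFn.comp2 IFn.sub' hf hg

instance : IFn M fun b : β => (Cod.cd b : M) := IFn.cd

/-! ### Composition instances (low priority) -/

instance (priority := 10) IFn.app {g : β → γ} {f : α → β} [hg : IFn M g] [hf : IFn M f] :
    IFn M fun a => g (f a) := IFn.comp hg hf

instance (priority := 10) IP.app {g : β → Prop} {f : α → β} [hg : IP M g] [hf : IFn M f] :
    IP M fun a => g (f a) := IP.comp hg hf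

instance (priority := 8) IP.app2 {g : β → γ → Prop} {f : α → β} {h : α → γ}
    [hg : IP M fun p : β × γ => g p.1 p.2] [hf : IFn M f] [hh : IFn M h] :
    IP M fun a => g (f a) (h a) := IP.comp2 (P := fun p : β × γ => g p.1 p.2) hg hf hh

instance (priority := 8) IFn.app2 {g : β → γ → δ} {f : α → β} {h : α → γ}
    [hg : IFn M fun p : β × γ => g p.1 p.2] [hf : IFn M f] [hh : IFn M h] :
    IFn M fun a => g (f a) (h a) := IFn.comp2 (h := fun p : β × γ => g p.1 p.2) hg hf hh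

instance (priority := 6) IFn.part {g : β → γ → δ} [hg : IFn M fun p : β × γ => g p.1 p.2] (b : β) :
    IFn M fun c => g b c :=
  IFn.comp2 (h := fun p : β × γ => g p.1 p.2) hg (f := fun _ : γ => b) (g := fun c : γ => c)
    inferInstance inferInstance

instance (priority := 6) IP.part {g : β → γ → Prop} [hg : IP M fun p : β × γ => g p.1 p.2] (b : β) :
    IP M fun c => g b c :=
  IP.comp2 (P := fun p : β × γ => g p.1 p.2) hg (f := fun _ : γ => b) (g := fun c : γ => c)
    inferInstance inferInstance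

/-! ### Induction and least numbers -/

theorem ind {P : M → Prop} (hP : IP M P) (h0 : P 0) (h1 : ∀ n, P n → P (n + 1)) : ∀ n, P n := by
  have h2 : cset M P ∈ World.X := hP.mem
  intro n
  have h3 : ∀ n, n ∈ cset M P ↔ P n := fun n => mem_cset (M := M) (P := P) (a := n)
  rw [← h3]
  refine World.ind _ h2 ((h3 0).2 h0) (fun n hn => (h3 _).2 (h1 n ((h3 n).1 hn))) n

/-- Course of values induction. -/
theorem sind {P : M → Prop} (hP : IP M P) (h1 : ∀ n, (∀ k, k < n → P k) → P n) : ∀ n, P n := by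
  have h : ∀ n, ∀ k, k < n → P k := by
    refine ind inferInstance ?_ ?_
    · intro k hk
      exact absurd hk (not_lt.2 (World.zero_le' k))
    · intro n ih k hk
      rw [World.lt_succ] at hk
      rcases hk.lt_or_eq with h | rfl
      · exact ih k h
      · exact h1 _ ih
  intro n
  exact h1 n (h n)

/-- The least number principle. -/
theorem exists_least {P : M → Prop} (hP : IP M P) (h : ∃ m, P m) :
    ∃ m, P m ∧ ∀ k, P k → m ≤ k := by
  by_contra hne
  push Not at hne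
  have : ∀ n, ¬ P n := by
    refine sind inferInstance ?_
    intro n ih hn
    obtain ⟨k, hk, hlt⟩ := hne n hn
    exact ih k hlt hk
  obtain ⟨m, hm⟩ := h
  exact this m hm

open Classical in
/-- The least element of `P`, or `0`. -/
noncomputable def lst (P : M → Prop) : M :=
  if h : ∃ m, P m ∧ ∀ k, P k → m ≤ k then h.choose else 0

theorem lst_spec {P : M → Prop} [hP : IP M P] (h : ∃ m, P m) : P (lst P) := by
  have h1 := exists_least hP h
  unfold lst
  rw [dif_pos h1]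
  exact h1.choose_spec.1

theorem lst_le {P : M → Prop} [hP : IP M P] {m : M} (h : P m) : lst P ≤ m := by
  have h1 := exists_least hP ⟨m, h⟩
  unfold lst
  rw [dif_pos h1]
  exact h1.choose_spec.2 m h

theorem lst_eq_iff {P : M → Prop} {m : M} : lst P = m ↔
    (P m ∧ ∀ k, P k → m ≤ k) ∨ ((¬ ∃ m, P m ∧ ∀ k, P k → m ≤ k) ∧ m = 0) := by
  classical
  unfold lst
  by_cases h : ∃ m, P m ∧ ∀ k, P k → m ≤ k
  · rw [dif_pos h]
    have h1 := h.choose_spec
    constructor
    · rintro rfl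
      exact Or.inl h1
    · rintro (h2 | ⟨h2, -⟩)
      · exact le_antisymm (h1.2 _ h2.1) (h2.2 _ h1.1)
      · exact absurd h h2
  · rw [dif_neg h]
    constructor
    · rintro rfl
      exact Or.inr ⟨h, rfl⟩
    · rintro (h2 | ⟨-, rfl⟩)
      · exact absurd ⟨m, h2⟩ h
      · rfl

instance IFn.lst {P : α → M → Prop} [hP : IP M fun p : α × M => P p.1 p.2] :
    IFn M fun a => CS.lst (P a) where
  g := by
    refine IP.congr (P := fun p : α × M => (P p.1 p.2 ∧ ∀ k, P p.1 k → p.2 ≤ k) ∨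
      ((¬ ∃ m, P p.1 m ∧ ∀ k, P p.1 k → m ≤ k) ∧ p.2 = 0)) ?_ fun p => lst_eq_iff.symm
    have h1 : IP M fun q : (α × M) × M => P q.1.1 q.2 :=
      IP.comp2 (P := fun p : α × M => P p.1 p.2) hP (f := fun q : (α × M) × M => q.1.1)
        (g := fun q : (α × M) × M => q.2) inferInstance inferInstance
    have h2 : IP M fun q : ((α × M) × M) × M => P q.1.1.1 q.2 :=
      IP.comp2 (P := fun p : α × M => P p.1 p.2) hP (f := fun q : ((α × M) × M) × M => q.1.1.1)
        (g := fun q : ((α × M) × M) × M => q.2) inferInstance inferInstance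
    infer_instance

instance IFn.ite {P : α → Prop} {d : ∀ a, Decidable (P a)} {f g : α → β} [hP : IP M P]
    [hf : IFn M f] [hg : IFn M g] : IFn M fun a => @_root_.ite β (P a) (d a) (f a) (g a) where
  g := by
    refine IP.congr (P := fun p : α × β => (P p.1 ∧ f p.1 = p.2) ∨ (¬ P p.1 ∧ g p.1 = p.2)) ?_
      fun p => ?_
    · infer_instance
    · by_cases h : P p.1 <;> simp [h]

end Pool.Agent.Helper6.CS
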