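import Pool.Agent.Helper41.CS.CODE

/-!
# Coding of finite sets (packet CODE)
-/

namespace Pool.Agent.Helper6.CS

theorem code : G_CODE := Pool.Agent.Helper41.CS.t_CODE

end Pool.Agent.Helper6.CS
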