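import Pool.Agent.Helper6.CS.Model
import Pool.Agent.Helper6.CS.Calc

/-!
# Project CS (MP_81e84b_lc): first goals (from models to worlds, coding of finite sets)
-/

namespace Pool.Agent.Helper6.CS

/-- The structure for the language of second order arithmetic given by a world. -/
def L2of (M : Type) (w : World M) : L2Structure :=
  ⟨M, 0, 1, fun a b => a + b, fun a b => a * b, fun a b => a < b, w.X⟩

/-- **ALGA** (addition and multiplication in a model of ACA_0).

PROOF. As for the natural numbers; every induction is over a set defined by an equation between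
terms, which is in `A.S` by `comprehension` applied to `Arith.eq s t` (with the variable `0` for
the induction variable and the parameters as the values of the other variables of `e`):
`{a | s.val A (update e 0 a) = t.val A (update e 0 a)} ∈ A.S`; then `induction`. Order: associativity
of `+` (induction on the last variable), `0 + a = a`, `(a + 1) + b = (a + b) + 1`, hence
commutativity of `+`; cancellation: by induction on `a` (`a + b = a + c → b = c`: use commuted form
`b + a = c + a → b = c`; this predicate is an implication of two equations, in `Arith` by `neg`,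
`and`, `eq`; step: `b + (a+1) = c + (a+1)` gives `(b + a) + 1 = (c + a) + 1`, `succ_inj`);
`0 * a = 0`, `(a + 1) * b = a * b + b`, commutativity of `*`, distributivity, associativity of `*`,
`a * 1 = a` (as `1 = 0 + 1`). -/
def G_ALGA : Prop := ∀ A : L2Structure, IsModelACA0 A →
  (∀ a b c, A.add (A.add a b) c = A.add a (A.add b c)) ∧
  (∀ a b, A.add a b = A.add b a) ∧
  (∀ a b c, A.add a b = A.add a c → b = c) ∧
  (∀ a b c, A.mul (A.mul a b) c = A.mul a (A.mul b c)) ∧
  (∀ a b, A.mul a b = A.mul b a) ∧
  (∀ a, A.mul a A.one = a) ∧
  (∀ a b c, A.mul a (A.add b c) = A.add (A.mul a b) (A.mul a c))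

/-- **ALGB** (the order of a model of ACA_0). `ALGA` may be used as a hypothesis.

PROOF. As for the natural numbers, all inductions over arithmetical predicates (`comprehension`).
(1) `a < b + 1 ↔ a < b ∨ a = b` and `¬ a < 0` are axioms. Transitivity: induction on `c` for
`∀ a b, a < b → b < c → a < c` (or with parameters `a, b`). Irreflexivity: induction on `a`; first
`a < b → a + 1 < b + 1` by induction on `b` (from the axioms), conversely `a + 1 < b + 1 → a < b`:
`a + 1 < b` or `a + 1 = b`, and `a < a + 1`, transitivity. Trichotomy: induction on `b`, with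
`0 < b + 1`. (2) `a < b ↔ ∃ c, b = a + (c + 1)`: from right to left by induction on `c`; from left
to right by induction on `b`. -/
def G_ALGB : Prop := ∀ A : L2Structure, IsModelACA0 A →
  (∀ a, ¬ A.lt a a) ∧
  (∀ a b c, A.lt a b → A.lt b c → A.lt a c) ∧
  (∀ a b, A.lt a b ∨ a = b ∨ A.lt b a) ∧
  (∀ a b, A.lt a b ↔ ∃ c, b = A.add a (A.add c A.one))

/-- **ALGC** (assembly: a model of ACA_0 is given by a world).

PROOF. Build the instance: `CommSemiring` from `ALGA` (`0 + a = a`, `0 * a = 0` from the axioms and
commutativity; `natCast`, `nsmul`, `npow` by the default values), `LinearOrder` with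
`a ≤ b := a < b ∨ a = b` from `ALGB` (classical decidability), `IsStrictOrderedRing`: addition is
monotone by `a ≤ b ↔ ∃ c, b = a + c` (from `ALGB`), strict monotonicity and `0 < a → 0 < b → 0 < a * b`
from cancellation and `a = (c + 1)`, `b = (d + 1)`. `zero_le'`, `exists_add`, `lt_succ` from `ALGB` and
the axioms, `ind` is `induction`. `comp`: by induction on `Ar X P` one shows that `P` is
`Arith A` (for the structure `A`, translate `Tm` to `Term`, the values agree), then
`comprehension`. All data (`0, 1, +, *, <, X`) are those of `A`, so `L2of A.M w = A` by `rfl` (or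
`cases A`). -/
def G_ALGC : Prop := G_ALGA → G_ALGB → ∀ A : L2Structure, IsModelACA0 A →
  ∃ w : World A.M, L2of A.M w = A

/-- The number `i` belongs to the finite set coded by `e`. -/
def Ecd {M : Type} [World M] (e i : M) : Prop :=
  ∃ m n c : M, e = pr m n ∧ n = (m * (i + 1) + 1) * c

/-- **CODE** (coding of finite sets in a world).

PROOF. All inductions are internal: use `ind` (in `Calc.lean`); the predicates are internal by
`inferInstance` (put `set_option synthInstance.maxSize 1000000000 in` before the theorem).
(1) There is `m ≥ 1` such that every `d` with `1 ≤ d ≤ K + 1` divides `m` (`∃ c, m = d * c`):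
induction on `K`. (2) For `i ≠ j`, `i, j ≤ K`, the numbers `x_i = m * (i + 1) + 1` and `x_j` are
coprime. It is convenient to pass to the ordered commutative ring `Z` of differences of elements of
`M` (pairs `(a, b)` modulo `a + d = c + b`) and to Mathlib's `IsCoprime` in `Z`: with `i < j`,
`d = j - i`, `(j + 1) x_i - (i + 1) x_j = d`, `x_i - (i + 1) m = 1`, so `x_i` is coprime to `m`, hence
to its divisor `d`, hence to `(i + 1) x_j`, hence to `x_j`. (Or work in `M` with the relation
`∃ u v, u * a = v * b + 1`, which is symmetric for `a, b ≥ 1`, and closed under products.)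
(3) By internal induction on `k ≤ K`: there is `n` such that for all `i < K`: if `i < k` then
(`x_i ∣ n ↔ P i`), and if `k ≤ i` or `¬ P i` then `x_i` is coprime to `n` (coprimality stated inside
`M`, e.g. `∃ u v : M, u * x_i = v * n + 1`). Step: `n' = n * x_k` if `P k`, `n' = n` otherwise; if
`x_i` divides `n * x_k`, `i ≠ k`, then `x_i` divides `n`. A number `x_i` with `m ≥ 1` is `> 1`, so it
cannot divide and be coprime to `n`. `n` stays `≥ 1`. Take `e = pr m n` for `k = K`. -/
def G_CODE : Prop := ∀ (M : Type) [World M] (P : M → Prop), IP M P → ∀ K : M,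
  ∃ e : M, ∀ i : M, i < K → (Ecd e i ↔ P i)

end Pool.Agent.Helper6.CS
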