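import Pool.Agent.Helper6.CS.Goals2
import Pool.Agent.Helper12.CS.L2
import Pool.Agent.Helper13.CS.COMP
import Pool.Agent.Helper15.CS.CLS
import Pool.Agent.Helper15.CS.ED
import Pool.Agent.Helper2.CS.ALGB
import Pool.Agent.Helper25.CS.LHA
import Pool.Agent.Helper27.CS.L4
import Pool.Agent.Helper28.CS.EA
import Pool.Agent.Helper36.CS.PH
import Pool.Agent.Helper40.CS.TZ
import Pool.Agent.Helper43.CS.ALGC
import Pool.Agent.Helper50.CS.CL0
import Pool.Agent.Helper53.CS.LHS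
import Pool.Agent.Helper57.CS.SHS
import Pool.Agent.Helper60.CS.EC
import Pool.Agent.Helper62.CS.DEC
import Pool.Agent.Helper66.CS.SHB
import Pool.Agent.Helper72.CS.EE
import Pool.Agent.Helper72.CS.L1F
import Pool.Agent.Helper79.CS.SH0
import Pool.Agent.Helper8.CS.NP
import Pool.Agent.Helper8.CS.OWL
import Pool.Agent.Helper83.CS.PSM
import Pool.Agent.Helper85.CS.LH0
import Pool.Agent.Helper86.CS.REC
import Pool.Agent.Helper89.CS.PREF
import Pool.Agent.Helper90.CS.CDF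
import Pool.Agent.Helper92.CS.VWI
import Pool.Agent.Helper96.CS.L1
import Pool.Agent.Helper9.CS.ALGA
import Pool.Agent.Helper14.CS.CS1
import Pool.Agent.Helper35.CS.EB
import Pool.Agent.Helper35.CS.TS
import Pool.Agent.Helper35.CS.PREH
import Pool.Agent.Helper35.CS.FC
import Pool.Agent.Helper80.CS.FA
import Pool.Agent.Helper80.CS.FB
import Pool.Agent.Helper41.CS.Avoid

/-!
# Project CS (MP_81e84b_lc): assembly
-/

namespace Pool.Agent.Helper6.CS

theorem t_BND : G_BND := fun _ _ L N => Pool.Agent.Helper41.CS.bdd_words L N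

theorem main : ∀ (n : ℕ) (A : L2Structure), IsModelACA0 A → A.SatOVW n := by
  have hALGA : G_ALGA := Pool.Agent.Helper9.CS.t_ALGA
  have hBND : G_BND := t_BND
  have hEB : G_EB := Pool.Agent.Helper35.CS.t_EB
  have hCDF : G_CDF := Pool.Agent.Helper90.CS.t_CDF hBND
  have hPH : G_PH := Pool.Agent.Helper36.CS.t_PH
  have hPSM : G_PSM := Pool.Agent.Helper83.CS.t_PSM
  have hL1 : G_L1 := Pool.Agent.Helper96.CS.t_L1
  have hL1F : G_L1F := Pool.Agent.Helper72.CS.t_L1F hL1 hPSM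
  have hL2 : G_L2 := Pool.Agent.Helper12.CS.t_L2
  have hNP : G_NP := Pool.Agent.Helper8.CS.t_NP hL2 hBND
  have hLH0 : G_LH0 := Pool.Agent.Helper85.CS.t_LH0 hCDF
  have hSHB : G_SHB := Pool.Agent.Helper66.CS.t_SHB hCDF
  have hSH0 : G_SH0 := Pool.Agent.Helper79.CS.t_SH0
  have hSHS : G_SHS := Pool.Agent.Helper57.CS.t_SHS hSHB hBND hCDF hPH
  have hLHS : G_LHS := Pool.Agent.Helper53.CS.t_LHS hCDF
  have hLHA : G_LHA := Pool.Agent.Helper25.CS.t_LHA hLH0 hSH0 hSHS hLHS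
  have hC1 : G_CS1 := Pool.Agent.Helper14.CS.t_CS1 hLHA hPH hCDF
  have hCL0 : G_CL0 := Pool.Agent.Helper50.CS.t_CL0
  have hCLS : G_CLS := Pool.Agent.Helper15.CS.t_CLS hNP hCDF
  have hL4 : G_L4 := Pool.Agent.Helper27.CS.t_L4 hCL0 hCLS hC1 hBND
  have hEA : G_EA := Pool.Agent.Helper28.CS.t_EA
  have hEC : G_EC := Pool.Agent.Helper60.CS.t_EC hL1F hL4 hBND hPSM hEA hEB
  have hREC : G_REC := Pool.Agent.Helper86.CS.t_REC
  have hED : G_ED := Pool.Agent.Helper15.CS.t_ED hREC hEB hEC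
  have hEE : G_EE := Pool.Agent.Helper72.CS.t_EE
  have hPH5 : G_PREH := Pool.Agent.Helper35.CS.t_PREH hED hEE
  have hOWL : G_OWL := Pool.Agent.Helper8.CS.t_OWL
  have hCOMP : G_COMP := Pool.Agent.Helper13.CS.t_COMP hOWL
  have hPREF : G_PREF := Pool.Agent.Helper89.CS.t_PREF hOWL
  have hVWI : G_VWI := Pool.Agent.Helper92.CS.t_VWI hOWL
  have hDEC : G_DEC := Pool.Agent.Helper62.CS.t_DEC
  have hTZ : G_TZ := Pool.Agent.Helper40.CS.t_TZ hPH5
  have hTSs : G_TS := Pool.Agent.Helper35.CS.t_TS hPH5 hCOMP hPREF hVWI hDEC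
  exact Pool.Agent.Helper35.CS.t_FC hALGA Pool.Agent.Helper2.CS.t_ALGB Pool.Agent.Helper43.CS.t_ALGC
    hTZ hTSs Pool.Agent.Helper80.CS.t_FA Pool.Agent.Helper80.CS.t_FB hVWI

end Pool.Agent.Helper6.CS
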