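import Mathlib

/-!
# Models of ACA_0

The definitions of the statement: structures for the language of second order arithmetic, and the
axioms of `ACA_0`.
-/

namespace Pool.Agent.Helper6.CS

/-- A structure for the language of second order arithmetic: the domain `M` of the number
variables, with `0, 1, +, *, <`, and the domain `S` of the set variables, a family of subsets
of `M`. -/
structure L2Structure : Type 1 where
  M : Type
  zero : M
  one : M
  add : M → M → M
  mul : M → M → M
  lt : M → M → Prop
  S : Set (Set M)

/-- The terms of the language; `var i` is the `i`-th number variable. -/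
inductive Term : Type
  | var (i : ℕ)
  | zero
  | one
  | add (s t : Term)
  | mul (s t : Term)

/-- The value of a term at an assignment `e` of numbers to the number variables. -/
def Term.val (A : L2Structure) (e : ℕ → A.M) : Term → A.M
  | .var i => e i
  | .zero => A.zero
  | .one => A.one
  | .add s t => A.add (s.val A e) (t.val A e)
  | .mul s t => A.mul (s.val A e) (t.val A e)

/-- The predicates of an assignment `e` which are defined by the arithmetical formulas (the
formulas without set quantifiers), where the free set variables denote members of `S`. -/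
inductive Arith (A : L2Structure) : ((ℕ → A.M) → Prop) → Prop
  | eq (s t : Term) : Arith A fun e => s.val A e = t.val A e
  | lt (s t : Term) : Arith A fun e => A.lt (s.val A e) (t.val A e)
  | mem (X : Set A.M) (hX : X ∈ A.S) (t : Term) : Arith A fun e => t.val A e ∈ X
  | neg {P : (ℕ → A.M) → Prop} (hP : Arith A P) : Arith A fun e => ¬ P e
  | and {P Q : (ℕ → A.M) → Prop} (hP : Arith A P) (hQ : Arith A Q) : Arith A fun e => P e ∧ Q e
  | ex {P : (ℕ → A.M) → Prop} (i : ℕ) (hP : Arith A P) :
      Arith A fun e => ∃ a, P (Function.update e i a)

/-- `A` is a model of `ACA_0`: the basic axioms, the induction axiom (for the members of `S`), and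
arithmetical comprehension (with number and set parameters). -/
structure IsModelACA0 (A : L2Structure) : Prop where
  succ_ne_zero : ∀ n, A.add n A.one ≠ A.zero
  succ_inj : ∀ m n, A.add m A.one = A.add n A.one → m = n
  add_zero : ∀ m, A.add m A.zero = m
  add_succ : ∀ m n, A.add m (A.add n A.one) = A.add (A.add m n) A.one
  mul_zero : ∀ m, A.mul m A.zero = A.zero
  mul_succ : ∀ m n, A.mul m (A.add n A.one) = A.add (A.mul m n) m
  not_lt_zero : ∀ m, ¬ A.lt m A.zero
  lt_succ : ∀ m n, A.lt m (A.add n A.one) ↔ A.lt m n ∨ m = n
  induction : ∀ X ∈ A.S, A.zero ∈ X → (∀ n ∈ X, A.add n A.one ∈ X) → ∀ n, n ∈ X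
  comprehension : ∀ P : (ℕ → A.M) → Prop, Arith A P → ∀ (e : ℕ → A.M) (i : ℕ),
    {a | P (Function.update e i a)} ∈ A.S

end Pool.Agent.Helper6.CS
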