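/-!
# MP_81e84b_lc: ACA_0 proves OVW^n for every n (paper proof)

All notions are those of the problem file: an n-variable word over A is a finite word over A and
x_0, .., x_(n-1) in which all x_i occur, the FIRST occurrences being in the order x_0, x_1, ...
(variables may come back later, so x_0 may occur between x_5 and x_6), the same for
omega-variable words W, and W[v] is cut at the first occurrence of x_|v|.

REMARK (slip in the problem file). The bullet of the file that OVW^1_l(1) is equivalent to the
finite union theorem is true for the words in which ALL occurrences of x_i come before all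
occurrences of x_(i+1). With the definitions of the file (first occurrences only, the
Carlson-Simpson theorem, which is the combinatorial core CDRT of the open dual Ramsey theorem) the
principle is weaker, and the best published upper bound is ACA_0^+ (Angles d'Auriac, Liu, Mignoty,
Patey). THEOREM: for every n, ACA_0 proves OVW^n (all alphabets, all numbers of colours).

## 0. Notation
B a finite alphabet, x a letter not in B, Bx = B + {x}; B^(<=q) = words of length at most q over B.
For y over Bx and b in B: y(b) = y with x replaced by b. Concatenation is written as product.

D, a set of words over B, is PS (piecewise syndetic) if there is p such that for all q there is a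
word y over B such that for all g in B^(<=q) there is t in B^(<=p) with t g y in D.
This is an arithmetical property of D. Supersets of PS sets are PS.

## Lemma 1. If D1 or D2 covers a PS set D (D = D1 + D2) then D1 or D2 is PS; the same for finite
## unions.
Let D be PS with p, D2 not PS. Take for p the q' of the failure of PS for D2: for all y' there is
g' in B^(<=q') with t g' y' not in D2 for all t in B^(<=p). D1 is PS with p + q': given q take y
for q + q'. Given g in B^(<=q), take g' for y' = g y. As |g' g| <= q + q' there is t in B^(<=p)
with t g' g y in D, not in D2, so in D1; and t g' in B^(<=p+q').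

## Lemma 2. Let (E_i), i < N, be sets of words over B which are not PS. For all p there is q such
## that for all words (y_i), i < N, there is g in B^(<=q) with t g y_i not in E_i for all i < N and
## all t in B^(<=p).
Induction on N. N + 1: let q1 be for N and p; let q2 be for (E_N, p + q1) (not PS). Given (y_i):
take g2 in B^(<=q2) with t g2 y_N not in E_N for all t in B^(<=p+q1); then g1 in B^(<=q1) for the
words g2 y_i, i < N. Then g = g1 g2 works, |g| <= q1 + q2.

## Lemma 3 (finite Carlson-Simpson theorem of dimension 1). For all finite B and r there is M such
## that for all colourings c of B^(<=M) with r colours there are a word sigma over B and a word tau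
## over Bx with first letter x, |sigma| + |tau| <= M, c(sigma) = c(sigma tau(b)) for all b in B.
For a k-variable word w over B = [b] = {0, .., b-1} (finite word, all k variables occur, first
occurrences in order) and a word a over B, |a| = i < k: w[a] is cut at the first x_i; |a| = k: no
cut.
LH(b,k,r): there is M such that for all c on [b]^(<=M) with r colours there is a k-variable word w
over [b], |w| <= M, such that c(w[a]), |a| <= k, depends only on |a|.
LH(0,k,r), LH(1,k,r): w = x_0 .. x_(k-1).
SH(b,m,r), b >= 1: there is M such that for all c on [b+1]^(<=M) with r colours there is an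
m-variable word w over [b+1], |w| <= M, with c(w[a]) = c(w[a*]) for all a in [b+1]^(<=m), where a*
is a with the letter b replaced by b-1.
SH by induction on m (for all r). m = 0: w = empty. m + 1: K = number of words in [b+1]^(<=m),
N = r^K, M' for (m, r^((b+1)^N)), M = N + M'. Given c let c'(z) = (c(alpha z)), alpha in
[b+1]^N: get an m-variable w', |w'| <= M', with c(alpha w'[a]) = c(alpha w'[a*]) for all alpha in
[b+1]^N. Let u_i = (b-1)^i b^(N-i), i = 0..N. Two of the N + 1 functions a |-> c(u_i w'[a]) on
[b+1]^(<=m) are equal, for i < i'. Let w = (b-1)^i x_0^(i'-i) b^(N-i') w'(shifted variables).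
If a = a_0 a' then w[a] = (b-1)^i a_0^(i'-i) b^(N-i') w'[a'], a' may be replaced by a'* and then
a_0 = b (the prefix is u_i) by b-1 (the prefix is u_(i')).
LH(b,.,.) => LH(b+1,k,r): m = M(LH(b,k,r)), M = M(SH(b,m,r)). Given c: w1 from SH, then w2 over
[b], |w2| <= m, from LH for a |-> c(w1[a]), a in [b]^(<=m); w = w1[w2]. For a in [b+1]^(<=k):
c(w[a]) = c(w1[w2[a]]) = c(w1[w2[a]*]) = c(w1[w2[a*]]) depends only on |a*| = |a|.
Lemma 3 from LH(b,r,r): two of the r + 1 levels have the same colour, i < i'; sigma = w[0^i],
sigma tau = w[0^i x 0^(i'-i-1)]. (B empty: M = 1, sigma empty, tau = x.)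

## Lemma 4. Let D be PS over B. There is s in D such that
## D(s) := {y over Bx : s b y(b) in D for all b in B} is PS over Bx.
Let p be for D and Y_q the word y for q. Suppose D(s) is not PS for all s in D. Let Cl(m): for all
L there is an m-variable word h over B with
(I) for all g in B^(<=L), beta in B^(<=m) there is t in B^(<=p) with t g h[beta] in D;
(P) for alpha in B^(<=L), sigma over B, tau over Bx with first letter x, |sigma| + |tau| <= m:
    not (alpha h[sigma] in D and alpha h[sigma tau(b)] in D for all b in B);
(Q) for s in D, |s| <= L, u in Bx^(<=L), tau in Bx^(<=m) containing x: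
    not (s b u(b) h[tau(b)] in D for all b in B).
Cl(0): h = Y_L. Cl(m) => Cl(m+1): given L let Y = Y_L, L1 = L + |Y| + 1. Let q' be from Lemma 2
over Bx with p := L1 for the family of the sets D(s) with the pairs (s, beta), s in D, |s| <= L1,
beta in B^(<=m) as indices. Let L2 = L1 + q' + 1, h' from Cl(m) for L2. Take g in Bx^(<=q') with
t g h'[beta] not in D(s) for all t in Bx^(<=L1), s in D with |s| <= L1, beta in B^(<=m).
h = Y x_0 g(x_0) h'(shifted variables). Check for L:
(I) beta empty: h[empty] = Y, clear. beta = e beta': t g0 Y e g(e) h'[beta'], use (I) of h'.
(P) sigma = e sigma': use (P) of h' with alpha' = alpha Y e g(e). sigma empty, tau = x tau':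
    s := alpha Y in D, |s| <= L1; alpha h[b tau'(b)] = s b g(b) h'[tau'(b)]. If x is in tau' use
    (Q) of h' with u = g; if not, g h'[tau'] is not in D(s).
(Q) tau = e tau': s b u(b) Y e(b) g(e(b)) h'[tau'(b)]. If x is in tau' use (Q) of h' with
    u' = u Y e g(e). If not then e = x and (u Y x) g h'[tau'] is not in D(s), |u Y x| <= L1.
Now take M of Lemma 3 for B and the number r of words in B^(<=p), and h for Cl(M), L = p. Colour
beta in B^(<=M) by some t in B^(<=p) with t h[beta] in D ((I) with g empty). Lemma 3 contradicts
(P) with alpha = t.

## Lemma 5. Let n >= 1 and let f colour the n-variable words over A with l colours. There is an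
## omega-variable word W (arithmetical in f) such that f(W[v]) = f(W[v']) for all n-variable
## words v, where v' is the shortest prefix of v which is an n-variable word (v' = v^- x_(n-1),
## v^- an (n-1)-variable word).
Capital X_i are the variables of W, B_j = A + {X_0, .., X_(j-1)}. Let w be a j-variable word over A
which ends with the first occurrence of X_(j-1) (w empty for j = 0). Let
D(w) = {y over B_j : f((wy)[v]) = f(w[v']) for all n-variable v with |v| = j, |v'| < j}
(w[v'] is cut at the first X_|v'|). w is good if D(w) is PS over B_j.
The empty word is good (D = all words over A). Let w be good. Colour y in D(w) by the function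
kappa(y): v |-> f((wy)[v]), v n-variable with |v| = j, v' = v. By Lemma 1 there is kappa0 such that
D' = {y in D(w) : kappa(y) = kappa0} is PS. Lemma 4: there is s in D' with
D'(s) = {y over B_(j+1) : s b y(b) in D' for all b in B_j} PS (x = X_j). Let w+ = w s X_j. Then
D'(s) is contained in D(w+), so w+ is good: let y in D'(s), v n-variable, |v| = j + 1, |v'| <= j,
v = v0 e; v0 is n-variable. Let b in B_j be e if e in A, and X_i if e is a variable and i is the
position of the first occurrence of e in v0. Then (w+ y)[v] = (w s b y(b))[v0]. If |v'| < j then
s b y(b) in D(w) gives f = f(w[v']) = f(w+[v']). If |v'| = j then v' = v0, and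
f((w s b y(b))[v0]) = kappa0(v0) = f((w s)[v0]) = f(w+[v0]).
Iterating (w_(j+1) = w_j s_j X_j, always the least choice) gives W = s_0 X_0 s_1 X_1 ..., and
W[v] = (w_k s_k)[v] for |v| = k, s_k in D(w_k), so f(W[v]) = f(w_k[v']) = f(W[v']).

## Theorem. By (external) induction on n. OVW^0 (colourings c of the words over A): A empty is
trivial; otherwise apply Lemma 5 for n = 1 to f(v) = c(v with x_0 replaced by a_0), a_0 in A, and
replace X_0 by a_0 in W. OVW^n from OVW^(n-1): let W be as in Lemma 5 and c(u) = f(W[u x_(n-1)])
for (n-1)-variable words u; let U be a solution for c; W[U] is a solution for f: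
f(W[U][v]) = f(W[U[v]]) = f(W[U[v]']) = f(W[U[v^-] x_(n-1)]) = c(U[v^-]).

Everything is elementary and the only infinite objects are f, D, W; being PS is arithmetical, so
the whole proof is in ACA_0. The solution W is computable from a fixed finite jump of f.
-/
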