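import Pool.Agent.Helper6.CS.Code

/-!
# Finite words in a world
-/

namespace Pool.Agent.Helper6.CS

set_option synthInstance.maxSize 1000000000

variable {M : Type} [World M]
variable {α β γ δ : Type} [Cod M α] [Cod M β] [Cod M γ] [Cod M δ]

/-! ### Coding of finite functions -/

instance : IP M fun p : M × M => Ecd p.1 p.2 := by unfold Ecd; infer_instance

/-- The entry number `i` of the finite function coded by `e`. -/
noncomputable def ev (e i : M) : M := lst fun v => Ecd e (pr i v)

instance : IFn M fun p : M × M => ev p.1 p.2 := by unfold ev; infer_instance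

/-- An internal function is bounded on initial segments. -/
theorem bdd (g : M → M) [IFn M g] : ∀ K : M, ∃ B : M, ∀ i, i < K → g i < B := by
  refine ind inferInstance ⟨0, fun i hi => absurd hi (not_lt.2 (World.zero_le' i))⟩ ?_
  rintro n ⟨B, hB⟩
  refine ⟨B + (g n + 1), fun i hi => ?_⟩
  rw [World.lt_succ] at hi
  rcases hi.lt_or_eq with h | rfl
  · exact lt_of_lt_of_le (hB i h) (le_add_of_nonneg_right (World.zero_le' _))
  · exact lt_of_lt_of_le ((World.lt_succ _ _).2 le_rfl) (le_add_of_nonneg_left (World.zero_le' _))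

/-- Collection: an internal relation which is total on an initial segment has bounded
witnesses. -/
theorem coll (R : M → M → Prop) [IP M fun p : M × M => R p.1 p.2] (K : M)
    (h : ∀ i, i < K → ∃ m, R i m) : ∃ B : M, ∀ i, i < K → ∃ m, m < B ∧ R i m := by
  obtain ⟨B, hB⟩ := bdd (fun i => lst fun m => R i m) K
  refine ⟨B, fun i hi => ⟨lst fun m => R i m, hB i hi, ?_⟩⟩
  have : IP M fun m => R i m :=
    IP.comp2 (P := fun p : M × M => R p.1 p.2) inferInstance (f := fun _ : M => i)
      (g := fun m : M => m) inferInstance inferInstance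
  exact lst_spec (h i hi)

/-- Every internal function is coded on every initial segment. -/
theorem ev_exists (g : M → M) [IFn M g] (K : M) : ∃ e : M, ∀ i, i < K → ev e i = g i := by
  obtain ⟨B, hB⟩ := bdd (fun i => pr i (g i)) K
  obtain ⟨e, he⟩ := code M (fun z => ∃ i, i < K ∧ z = pr i (g i)) inferInstance B
  refine ⟨e, fun i hi => ?_⟩
  have h1 : Ecd e (pr i (g i)) := (he _ (hB i hi)).2 ⟨i, hi, rfl⟩
  have : IP M fun v : M => Ecd e (pr i v) := by infer_instance
  have h2 : ev e i ≤ g i := lst_le (P := fun v : M => Ecd e (pr i v)) h1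
  have h3 : Ecd e (pr i (ev e i)) := lst_spec (P := fun v : M => Ecd e (pr i v)) ⟨_, h1⟩
  rcases h2.lt_or_eq with h4 | h4
  · have h5 : pr i (ev e i) < B := lt_trans (pr_lt (by gcongr)) (hB i hi)
    obtain ⟨j, -, hj⟩ := (he _ h5).1 h3
    obtain ⟨rfl, h6⟩ := pr_inj hj
    exact h6
  · exact h4

/-! ### Words -/

/-- A finite word: a length and an internal function, `0` beyond the length. -/
structure Wd (M : Type) [World M] : Type where
  len : M
  get : M → M
  int : IFn M get
  supp : ∀ i, len ≤ i → get i = 0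

attribute [instance] Wd.int

theorem Wd.ext' {v w : Wd M} (h : v.len = w.len) (h2 : ∀ i, i < v.len → v.get i = w.get i) :
    v = w := by
  obtain ⟨l, g, h3, h4⟩ := v
  obtain ⟨l', g', h3', h4'⟩ := w
  simp only at h h2 h4 h4'
  subst h
  have : g = g' := by
    funext i
    rcases lt_or_ge i l with hi | hi
    · exact h2 i hi
    · rw [h4 i hi, h4' i hi]
  subst this
  rfl

/-- `e` codes `w`. -/
def Wd.CodeOf (w : Wd M) (e : M) : Prop := ∃ m, e = pr w.len m ∧ ∀ i, i < w.len → ev m i = w.get i

instance (w : Wd M) : IP M fun e => w.CodeOf e := by unfold Wd.CodeOf; infer_instance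

theorem Wd.exists_code (w : Wd M) : ∃ e, w.CodeOf e := by
  obtain ⟨m, hm⟩ := ev_exists w.get w.len
  exact ⟨pr w.len m, m, rfl, hm⟩

theorem Wd.codeOf_inj {v w : Wd M} {e : M} (h : v.CodeOf e) (h' : w.CodeOf e) : v = w := by
  obtain ⟨m, he, hm⟩ := h
  obtain ⟨m', he', hm'⟩ := h'
  rw [he] at he'
  obtain ⟨h1, rfl⟩ := pr_inj he'
  exact Wd.ext' h1 fun i hi => by rw [← hm i hi, ← hm' i (h1 ▸ hi)]

/-- The word of length `k` with the entries `g i`. -/
noncomputable def Wd.of (k : M) (g : M → M) : Wd M := by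
  classical
  exact if h : IFn M g then
    ⟨k, fun i => if i < k then g i else 0, inferInstance, fun i hi => if_neg (not_lt.2 hi)⟩
  else ⟨0, fun _ => 0, inferInstance, fun _ _ => rfl⟩

theorem Wd.len_of (k : M) (g : M → M) [h : IFn M g] : (Wd.of k g).len = k := by
  unfold Wd.of
  rw [dif_pos h]

open Classical in
theorem Wd.get_of (k : M) (g : M → M) [h : IFn M g] (i : M) :
    (Wd.of k g).get i = if i < k then g i else 0 := by
  unfold Wd.of
  rw [dif_pos h]

theorem Wd.get_of_lt (k : M) (g : M → M) [h : IFn M g] {i : M} (hi : i < k) :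
    (Wd.of k g).get i = g i := by
  rw [Wd.get_of, if_pos hi]

noncomputable instance : Cod M (Wd M) where
  cd w := lst fun e => w.CodeOf e
  inj := by
    intro v w h
    have h1 : v.CodeOf (lst fun e => v.CodeOf e) := lst_spec v.exists_code
    have h2 : w.CodeOf (lst fun e => w.CodeOf e) := lst_spec w.exists_code
    simp only at h
    rw [h] at h1
    exact Wd.codeOf_inj h1 h2
  rng := by
    have h0 : IP M fun e : M => ∃ k m, e = pr k m ∧
        ∀ m', (∀ i, i < k → ev m' i = ev m i) → e ≤ pr k m' := inferInstance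
    have h1 := h0.mem
    have h2 : {m : M | ∃ a : Wd M, (lst fun e => a.CodeOf e) = m} =
        {m : M | ∃ a : M, instCod.cd a = m ∧ ∃ k m, a = pr k m ∧
          ∀ m', (∀ i, i < k → ev m' i = ev m i) → a ≤ pr k m'} := by
      ext z
      constructor
      · rintro ⟨w, rfl⟩
        obtain ⟨m, h3, h4⟩ : w.CodeOf (lst fun e => w.CodeOf e) := lst_spec w.exists_code
        refine ⟨_, rfl, w.len, m, h3, fun m' hm' => lst_le (P := fun e => w.CodeOf e) ?_⟩
        exact ⟨m', rfl, fun i hi => (hm' i hi).trans (h4 i hi)⟩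
      · rintro ⟨a, rfl, k, m, rfl, h3⟩
        refine ⟨Wd.of k (ev m), ?_⟩
        have h4 : (Wd.of k (ev m)).CodeOf (pr k m) :=
          ⟨m, by rw [Wd.len_of], fun i hi => by
            rw [Wd.len_of] at hi
            rw [Wd.get_of_lt _ _ hi]⟩
        refine le_antisymm (lst_le (P := fun e => (Wd.of k (ev m)).CodeOf e) h4) ?_
        obtain ⟨m', h5, h6⟩ : (Wd.of k (ev m)).CodeOf (lst fun e => (Wd.of k (ev m)).CodeOf e) :=
          lst_spec ⟨_, h4⟩
        rw [h5, Wd.len_of]
        refine h3 m' fun i hi => ?_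
        rw [h6 i (by rwa [Wd.len_of]), Wd.get_of_lt _ _ hi]
    rw [h2]
    exact h1

theorem Wd.codeOf_cd (w : Wd M) : w.CodeOf (Cod.cd w) := lst_spec w.exists_code

theorem Wd.cd_le {w : Wd M} {e : M} (h : w.CodeOf e) : (Cod.cd w : M) ≤ e :=
  lst_le (P := fun e => w.CodeOf e) h

theorem Wd.cd_eq_pr (w : Wd M) : ∃ m, (Cod.cd w : M) = pr w.len m ∧
    ∀ i, i < w.len → ev m i = w.get i := w.codeOf_cd

instance : IFn M fun w : Wd M => w.len where
  g := by
    refine IP.congr (P := fun p : Wd M × M => ∃ m, (Cod.cd p.1 : M) = pr p.2 m) inferInstance ?_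
    rintro ⟨w, k⟩
    obtain ⟨m, hm, -⟩ := w.cd_eq_pr
    constructor
    · rintro ⟨m', hm'⟩
      simp only at hm' ⊢
      rw [hm] at hm'
      exact (pr_inj hm').1
    · intro h
      simp only at h
      exact ⟨m, by rw [hm, h]⟩

instance : IFn M fun p : Wd M × M => p.1.get p.2 where
  g := by
    refine IP.congr (P := fun p : (Wd M × M) × M => ∃ k m, (Cod.cd p.1.1 : M) = pr k m ∧
      ((p.1.2 < k ∧ ev m p.1.2 = p.2) ∨ (¬ p.1.2 < k ∧ p.2 = 0))) inferInstance ?_
    rintro ⟨⟨w, i⟩, v⟩
    obtain ⟨m, hm, hm2⟩ := w.cd_eq_pr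
    simp only
    constructor
    · rintro ⟨k, m', h1, h2⟩
      rw [hm] at h1
      obtain ⟨rfl, rfl⟩ := pr_inj h1
      rcases h2 with ⟨h3, h4⟩ | ⟨h3, h4⟩
      · rw [← hm2 i h3, h4]
      · rw [w.supp i (not_lt.1 h3), h4]
    · intro h
      refine ⟨_, _, hm, ?_⟩
      rcases lt_or_ge i w.len with h3 | h3
      · exact Or.inl ⟨h3, by rw [hm2 i h3, h]⟩
      · exact Or.inr ⟨not_lt.2 h3, by rw [← h, w.supp i h3]⟩

instance : IP M fun p : Wd M × M => p.1.CodeOf p.2 := by unfold Wd.CodeOf; infer_instance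

instance IFn.of {k : α → M} {g : α → M → M} [hk : IFn M k]
    [hg : IFn M fun p : α × M => g p.1 p.2] : IFn M fun a => Wd.of (k a) (g a) where
  g := by
    refine IP.congr (P := fun p : α × Wd M => p.2.len = k p.1 ∧ ∀ i : M, (i < k p.1 ∧
      p.2.get i = g p.1 i) ∨ (¬ i < k p.1 ∧ p.2.get i = 0)) ?_ ?_
    · infer_instance
    rintro ⟨a, w⟩
    have : IFn M (g a) := inferInstance
    simp only
    constructor
    · rintro ⟨h1, h2⟩
      refine Wd.ext' (by rw [Wd.len_of, h1]) fun i hi => ?_
      rw [Wd.len_of] at hi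
      rw [Wd.get_of_lt _ _ hi]
      rcases h2 i with ⟨-, h3⟩ | ⟨h3, -⟩
      · exact h3.symm
      · exact absurd hi h3
    · rintro rfl
      refine ⟨Wd.len_of _ _, fun i => ?_⟩
      rw [Wd.get_of]
      rcases lt_or_ge i (k a) with h3 | h3
      · exact Or.inl ⟨h3, if_pos h3⟩
      · exact Or.inr ⟨not_lt.2 h3, if_neg (not_lt.2 h3)⟩

/-! ### Operations on words -/

/-- The empty word. -/
noncomputable def Wd.nil (M : Type) [World M] : Wd M := Wd.of 0 fun _ => 0

/-- The word with one letter. -/
noncomputable def Wd.sg (a : M) : Wd M := Wd.of 1 fun _ => a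

open Classical in
/-- Concatenation. -/
noncomputable instance : Append (Wd M) where
  append s t := Wd.of (s.len + t.len) fun i => if i < s.len then s.get i else t.get (i - s.len)

theorem Wd.app_def (s t : Wd M) : s ++ t =
    Wd.of (s.len + t.len) fun i => if i < s.len then s.get i else t.get (i - s.len) := by
  change Wd.of _ _ = _
  congr 1

instance IFn.append {f g : α → Wd M} [hf : IFn M f] [hg : IFn M g] :
    IFn M fun a => f a ++ g a := by
  have h : IFn M fun p : Wd M × Wd M => p.1 ++ p.2 := by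
    have : (fun p : Wd M × Wd M => p.1 ++ p.2) = fun p : Wd M × Wd M =>
      Wd.of (p.1.len + p.2.len)
        fun i => if i < p.1.len then p.1.get i else p.2.get (i - p.1.len) := by
      funext p; exact Wd.app_def _ _
    rw [this]
    infer_instance
  exact IFn.comp2 h hf hg

instance IFn.sg {f : α → M} [hf : IFn M f] : IFn M fun a => Wd.sg (f a) := by
  unfold Wd.sg
  infer_instance

/-- All letters of `w` are less than `b`. -/
def Over (b : M) (w : Wd M) : Prop := ∀ i, i < w.len → w.get i < b

instance : IP M fun p : M × Wd M => Over p.1 p.2 := by unfold Over; infer_instance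

open Classical in
/-- The letter `x` of `w` is replaced by the letter `c`. -/
noncomputable def Wd.sub (x c : M) (w : Wd M) : Wd M :=
  Wd.of w.len fun i => if w.get i = x then c else w.get i

instance IFn.wsub {f g : α → M} {h : α → Wd M} [hf : IFn M f] [hg : IFn M g] [hh : IFn M h] :
    IFn M fun a => Wd.sub (f a) (g a) (h a) := by
  unfold Wd.sub
  infer_instance

/-- The prefix of length `p` (the whole word if `p` is greater than the length). -/
noncomputable def Wd.take (p : M) (w : Wd M) : Wd M := Wd.of (min p w.len) w.get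

instance IFn.min {f g : α → M} [hf : IFn M f] [hg : IFn M g] :
    IFn M fun a => Min.min (f a) (g a) := by
  have : (fun a => Min.min (f a) (g a)) = fun a => if f a ≤ g a then f a else g a := by
    funext a
    rw [min_def]
  rw [this]
  infer_instance

instance IFn.take {f : α → M} {h : α → Wd M} [hf : IFn M f] [hh : IFn M h] :
    IFn M fun a => Wd.take (f a) (h a) := by
  unfold Wd.take
  infer_instance

/-! ### Internal choice and decoding -/

open Classical in
/-- The element with the least code which satisfies `P`. -/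
noncomputable def pick (M : Type) [World M] {β : Type} [Cod M β] [Inhabited β] (P : β → Prop) : β :=
  if h : ∃ x, P x ∧ ∀ y, P y → (Cod.cd x : M) ≤ Cod.cd y then h.choose else default

theorem pick_spec {β : Type} [Cod M β] [Inhabited β] {P : β → Prop} [hP : IP M P]
    (h : ∃ x, P x) : P (pick M P) := by
  have h1 : ∃ x, P x ∧ ∀ y, P y → (Cod.cd x : M) ≤ Cod.cd y := by
    obtain ⟨x, hx⟩ := h
    obtain ⟨m, ⟨y, hy, hm⟩, h2⟩ := exists_least (P := fun m : M => ∃ y : β, P y ∧ Cod.cd y = m)
      inferInstance ⟨_, x, hx, rfl⟩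
    refine ⟨y, hy, fun z hz => ?_⟩
    rw [hm]
    exact h2 _ ⟨z, hz, rfl⟩
  unfold pick
  rw [dif_pos h1]
  exact h1.choose_spec.1

theorem pick_eq_iff {β : Type} [Cod M β] [Inhabited β] {P : β → Prop} {b : β} :
    pick M P = b ↔ (P b ∧ ∀ y, P y → (Cod.cd b : M) ≤ Cod.cd y) ∨
      ((¬ ∃ x, P x ∧ ∀ y, P y → (Cod.cd x : M) ≤ Cod.cd y) ∧ b = default) := by
  unfold pick
  by_cases h : ∃ x, P x ∧ ∀ y, P y → (Cod.cd x : M) ≤ Cod.cd y
  · rw [dif_pos h]
    have h1 := h.choose_spec
    constructor
    · rintro rfl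
      exact Or.inl h1
    · rintro (h2 | ⟨h2, -⟩)
      · exact Cod.inj (le_antisymm (h1.2 _ h2.1) (h2.2 _ h1.1))
      · exact absurd h h2
  · rw [dif_neg h]
    constructor
    · rintro rfl
      exact Or.inr ⟨h, rfl⟩
    · rintro (h2 | ⟨-, rfl⟩)
      · exact absurd ⟨b, h2⟩ h
      · rfl

instance IFn.pick [Inhabited β] {P : α → β → Prop} [hP : IP M fun p : α × β => P p.1 p.2] :
    IFn M fun a => CS.pick M (P a) where
  g := by
    refine IP.congr (P := fun p : α × β => (P p.1 p.2 ∧ ∀ y : β, P p.1 y →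
      (Cod.cd p.2 : M) ≤ Cod.cd y) ∨ ((¬ ∃ x : β, P p.1 x ∧ ∀ y : β, P p.1 y →
        (Cod.cd x : M) ≤ Cod.cd y) ∧ p.2 = default)) ?_ fun p => pick_eq_iff.symm
    infer_instance

noncomputable instance : Inhabited (Wd M) := ⟨Wd.nil M⟩

/-- The word with code `m`. -/
noncomputable def dec (m : M) : Wd M := pick M fun w : Wd M => (Cod.cd w : M) = m

instance IFn.dec {f : α → M} [hf : IFn M f] : IFn M fun a => CS.dec (f a) := by
  unfold CS.dec
  infer_instance

instance : IFn M fun m : M => CS.dec m := IFn.dec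

instance : IFn M fun m : M => Wd.sg m := IFn.sg

theorem dec_cd (w : Wd M) : dec (Cod.cd w : M) = w := by
  have h : (Cod.cd (dec (Cod.cd w : M)) : M) = Cod.cd w :=
    pick_spec (P := fun v : Wd M => (Cod.cd v : M) = Cod.cd w) ⟨w, rfl⟩
  exact Cod.inj h

/-- The coded function `h` from words to words. -/
noncomputable def apw (h : M) (a : Wd M) : Wd M := dec (ev h (Cod.cd a))

instance IFn.apw {f : α → M} {g : α → Wd M} [hf : IFn M f] [hg : IFn M g] :
    IFn M fun a => CS.apw (f a) (g a) := by
  unfold CS.apw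
  infer_instance

/-- The coded function `h` from words to numbers. -/
noncomputable def apn (h : M) (a : Wd M) : M := ev h (Cod.cd a)

instance IFn.apn {f : α → M} {g : α → Wd M} [hf : IFn M f] [hg : IFn M g] :
    IFn M fun a => CS.apn (f a) (g a) := by
  unfold CS.apn
  infer_instance

end Pool.Agent.Helper6.CS
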