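import Mathlib

/-!
# Worlds: models of ACA_0 in algebraic form, and the internal calculus
-/

namespace Pool.Agent.Helper6.CS

/-- Terms over a semiring. -/
inductive Tm : Type
  | var (i : ℕ)
  | zero
  | one
  | add (s t : Tm)
  | mul (s t : Tm)

/-- The value of a term. -/
def Tm.val {M : Type} [CommSemiring M] (e : ℕ → M) : Tm → M
  | .var i => e i
  | .zero => 0
  | .one => 1
  | .add s t => s.val e + t.val e
  | .mul s t => s.val e * t.val e

/-- Arithmetical predicates of an assignment, with set parameters from `X`. -/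
inductive Ar {M : Type} [CommSemiring M] [LT M] (X : Set (Set M)) : ((ℕ → M) → Prop) → Prop
  | eq (s t : Tm) : Ar X fun e => s.val e = t.val e
  | lt (s t : Tm) : Ar X fun e => s.val e < t.val e
  | mem (S : Set M) (hS : S ∈ X) (t : Tm) : Ar X fun e => t.val e ∈ S
  | neg {P : (ℕ → M) → Prop} (hP : Ar X P) : Ar X fun e => ¬ P e
  | and {P Q : (ℕ → M) → Prop} (hP : Ar X P) (hQ : Ar X Q) : Ar X fun e => P e ∧ Q e
  | ex {P : (ℕ → M) → Prop} (i : ℕ) (hP : Ar X P) : Ar X fun e => ∃ a, P (Function.update e i a)

/-- A world: a model of `ACA_0` in algebraic form. -/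
class World (M : Type) extends CommSemiring M, LinearOrder M, IsStrictOrderedRing M where
  X : Set (Set M)
  zero_le' : ∀ a : M, 0 ≤ a
  exists_add : ∀ a b : M, a ≤ b → ∃ c, b = a + c
  lt_succ : ∀ a b : M, a < b + 1 ↔ a ≤ b
  ind : ∀ S ∈ X, (0 : M) ∈ S → (∀ n ∈ S, n + 1 ∈ S) → ∀ n, n ∈ S
  comp : ∀ P : (ℕ → M) → Prop, Ar X P → ∀ (e : ℕ → M) (i : ℕ), {a | P (Function.update e i a)} ∈ X

variable {M : Type} [World M]

instance : CanonicallyOrderedAdd M where
  exists_add_of_le := fun {a b} h => World.exists_add a b h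
  le_add_self := fun _ b => le_add_of_nonneg_left (World.zero_le' b)
  le_self_add := fun _ b => le_add_of_nonneg_right (World.zero_le' b)

open Classical in
/-- Truncated subtraction. -/
noncomputable instance : Sub M where
  sub a b := if h : b ≤ a then (World.exists_add b a h).choose else 0

theorem World.sub_eq_iff (a b c : M) : a - b = c ↔ (b ≤ a ∧ a = b + c) ∨ (¬ b ≤ a ∧ c = 0) := by
  change (if h : b ≤ a then (World.exists_add b a h).choose else 0) = c ↔ _
  by_cases h : b ≤ a
  · rw [dif_pos h]
    have h1 := (World.exists_add b a h).choose_spec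
    constructor
    · rintro rfl
      exact Or.inl ⟨h, h1⟩
    · rintro (⟨-, h2⟩ | ⟨h2, -⟩)
      · exact add_left_cancel (h1.symm.trans h2)
      · exact absurd h h2
  · rw [dif_neg h]
    constructor
    · rintro rfl
      exact Or.inr ⟨h, rfl⟩
    · rintro (⟨h2, -⟩ | ⟨-, h2⟩)
      · exact absurd h2 h
      · exact h2.symm

instance : OrderedSub M where
  tsub_le_iff_right a b c := by
    rcases (World.sub_eq_iff a b (a - b)).1 rfl with ⟨h1, h2⟩ | ⟨h1, h2⟩
    · constructor
      · intro h
        rw [h2, add_comm]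
        exact add_le_add_left h _
      · intro h
        by_contra h3
        rw [not_le] at h3
        have : b + c < b + (a - b) := add_lt_add_right h3 _
        rw [← h2, add_comm] at this
        exact absurd h (not_le.2 this)
    · rw [h2]
      constructor
      · intro _
        exact (not_le.1 h1).le.trans (le_add_of_nonneg_left (World.zero_le' c))
      · intro _
        exact World.zero_le' c

theorem Ar.or {X : Set (Set M)} {P Q : (ℕ → M) → Prop} (hP : Ar X P) (hQ : Ar X Q) :
    Ar X fun e => P e ∨ Q e := by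
  have := (hP.neg.and hQ.neg).neg
  have h : (fun e => ¬ (¬ P e ∧ ¬ Q e)) = fun e => P e ∨ Q e := by
    funext e; apply propext; tauto
  rwa [h] at this

theorem Ar.all {X : Set (Set M)} {P : (ℕ → M) → Prop} (i : ℕ) (hP : Ar X P) :
    Ar X fun e => ∀ a, P (Function.update e i a) := by
  have := (hP.neg.ex i).neg
  have h : (fun e => ¬ ∃ a, ¬ P (Function.update e i a)) =
      fun e => ∀ a, P (Function.update e i a) := by
    funext e; apply propext; push Not; exact Iff.rfl
  rwa [h] at this

/-- The pairing function. -/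
def pr (m n : M) : M := (m + n) * (m + n) + m

theorem World.one_le_of_pos {c : M} (h : 0 < c) : 1 ≤ c := by
  by_contra hh
  have h1 : c < 0 + 1 := by rw [zero_add]; exact not_le.1 hh
  rw [World.lt_succ] at h1
  exact absurd h1 (not_le.2 h)

theorem World.add_one_le {a b : M} (h : a < b) : a + 1 ≤ b := by
  obtain ⟨c, hc⟩ := World.exists_add a b h.le
  have hc0 : c ≠ 0 := by
    rintro rfl
    rw [add_zero] at hc
    exact absurd hc.symm h.ne
  rw [hc]
  exact add_le_add_right (World.one_le_of_pos (lt_of_le_of_ne (World.zero_le' c) (Ne.symm hc0))) _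

theorem pr_lt {a b a' b' : M} (h : a + b < a' + b') : pr a b < pr a' b' := by
  have h1 := World.add_one_le h
  have z1 := World.zero_le' (a + b)
  have z2 := World.zero_le' (a' + b')
  calc pr a b = (a + b) * (a + b) + a := rfl
    _ ≤ (a + b) * (a + b) + (a + b) :=
        add_le_add_right (le_add_of_nonneg_right (World.zero_le' b)) _
    _ < (a + b) * (a + b) + (a + b) + ((a + b) + 1) :=
        lt_add_of_pos_right _ (lt_of_lt_of_le zero_lt_one (le_add_of_nonneg_left z1))
    _ = (a + b + 1) * (a + b + 1) := by ring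
    _ ≤ (a' + b') * (a' + b') := mul_le_mul h1 h1 (add_nonneg z1 zero_le_one) z2
    _ ≤ (a' + b') * (a' + b') + a' := le_add_of_nonneg_right (World.zero_le' a')

theorem pr_inj {m n m' n' : M} (h : pr m n = pr m' n') : m = m' ∧ n = n' := by
  have e : m + n = m' + n' := by
    rcases lt_trichotomy (m + n) (m' + n') with h1 | h1 | h1
    · exact absurd h (pr_lt h1).ne
    · exact h1
    · exact absurd h (pr_lt h1).ne'
  unfold pr at h
  rw [e] at h
  have e1 : m = m' := add_left_cancel h
  subst e1
  exact ⟨rfl, add_left_cancel e⟩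

theorem pr_inj_iff {m n m' n' : M} : pr m n = pr m' n' ↔ m = m' ∧ n = n' :=
  ⟨pr_inj, by rintro ⟨rfl, rfl⟩; rfl⟩

end Pool.Agent.Helper6.CS
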